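import Pool.Agent.Lib.MP_e326dc_an.Cube.NullApi

set_option autoImplicit false

/-!
# Essential ultrafilters (1.9)
-/

open Filter Topology

namespace MP_e326dc_an

attribute [local instance] Ultrafilter.add Ultrafilter.addSemigroup

theorem isClosed_Ess : IsClosed Ess := by
  have h : Ess = ⋂ A : {A : Set ℤ // NullSet A}, {p : Ultrafilter ℤ | A.1ᶜ ∈ p} := by
    ext p
    simp only [Set.mem_iInter, Subtype.forall]
    constructor
    · intro hp A hA
      show Aᶜ ∈ p
      rw [Ultrafilter.compl_mem_iff_notMem]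
      exact fun h => hp A h hA
    · intro hp A hA hnull
      have : Aᶜ ∈ p := hp A hnull
      rw [Ultrafilter.compl_mem_iff_notMem] at this
      exact this hA
  rw [h]
  exact isClosed_iInter fun A => ultrafilter_isClosed_basic _

theorem exists_Ess {A : Set ℤ} (hA : ¬ NullSet A) : ∃ p ∈ Ess, A ∈ p := by
  let F : Filter ℤ :=
    { sets := {B | NullSet (A \ B)}
      univ_sets := by
        show NullSet (A \ Set.univ)
        simpa using nullSet_empty
      sets_of_superset := fun {B B'} hB hBB' =>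
        NullSet.mono hB (Set.diff_subset_diff_right hBB')
      inter_sets := fun {B B'} hB hB' => by
        show NullSet (A \ (B ∩ B'))
        rw [Set.diff_inter]
        exact NullSet.union hB hB' }
  have hF : F.NeBot := by
    refine ⟨fun h => hA ?_⟩
    have h1 : (∅ : Set ℤ) ∈ F := by rw [h]; exact mem_bot
    have h2 : NullSet (A \ ∅) := h1
    simpa using h2
  refine ⟨Ultrafilter.of F, fun B hB hnull => ?_, ?_⟩
  · have h1 : Bᶜ ∈ F := by
      show NullSet (A \ Bᶜ)
      exact hnull.mono (by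
        rintro n ⟨_, hn⟩
        simpa using hn)
    have h2 : Bᶜ ∈ Ultrafilter.of F := Ultrafilter.of_le F h1
    rw [Ultrafilter.compl_mem_iff_notMem] at h2
    exact h2 hB
  · have h1 : A ∈ F := by
      show NullSet (A \ A)
      simpa using nullSet_empty
    exact Ultrafilter.of_le F h1

theorem Ess_add_mem (p : Ultrafilter ℤ) {q : Ultrafilter ℤ} (hq : q ∈ Ess) : p + q ∈ Ess := by
  intro A hA hnull
  have h1 : ∀ᶠ m in ((p + q : Ultrafilter ℤ) : Filter ℤ), m ∈ A := hA
  rw [Ultrafilter.eventually_add] at h1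
  obtain ⟨m, hm⟩ := h1.exists
  refine hq {m' | m + m' ∈ A} hm ?_
  have h2 := hnull.shift m
  refine h2.mono fun n hn => ?_
  show n + m ∈ A
  rw [add_comm]
  exact hn

theorem Ess_nonempty : Ess.Nonempty := by
  obtain ⟨p, hp, _⟩ := exists_Ess not_nullSet_univ
  exact ⟨p, hp⟩

theorem exists_idem_Ess : ∃ p ∈ Ess, p + p = p :=
  exists_idem_ultra Ess Ess_nonempty isClosed_Ess fun p _ _ hq => Ess_add_mem p hq

theorem null_iff_Ess {E : Type*} [SeminormedAddCommGroup E] {f : ℤ → E} (hb : Bdd f) :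
    Null f ↔ ∀ p ∈ Ess, Tendsto f p (𝓝 0) := by
  constructor
  · intro hf p hp
    rw [tendsto_zero_iff_norm_tendsto_zero, Metric.tendsto_nhds]
    intro ε hε
    have h1 : {n | ε ≤ ‖f n‖} ∉ p := fun h => hp _ h (hf.nullSet hε)
    rw [← Ultrafilter.compl_mem_iff_notMem] at h1
    refine Filter.mem_of_superset h1 fun n hn => ?_
    have h2 : ‖f n‖ < ε := not_le.mp hn
    show dist ‖f n‖ 0 < ε
    rw [Real.dist_0_eq_abs, abs_of_nonneg (norm_nonneg _)]
    exact h2
  · intro h
    refine Null.of_nullSet hb fun ε hε => ?_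
    by_contra hcon
    obtain ⟨p, hp, hA⟩ := exists_Ess hcon
    have h1 := (tendsto_zero_iff_norm_tendsto_zero.mp (h p hp)).eventually
      (eventually_lt_nhds hε)
    have h2 : ∀ᶠ n in (p : Filter ℤ), ε ≤ ‖f n‖ := hA
    obtain ⟨n, hn1, hn2⟩ := (h1.and h2).exists
    linarith

end MP_e326dc_an
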