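import Pool.Agent.Lib.MP_e326dc_an.Cube.Maps

set_option autoImplicit false

/-!
# Transitivity on cubes and gluing (1.4 and 1.5 of NIL_struct4)
-/

open Filter Topology

namespace MP_e326dc_an

attribute [local instance] Ultrafilter.add Ultrafilter.addSemigroup

section
variable {X Y : Type*} [TopologicalSpace X] [TopologicalSpace Y] {T : X ≃ₜ X} {S : Y ≃ₜ Y}
variable {ι κ : Type*}

/-- every cube is in the orbit closure of every constant cube -/
theorem Cub_subset_closure (hT : IsMin T) (x : X) :
    Cub T ι ⊆ closure (Set.range fun v : Option ι → ℤ => cact T v (fun _ : Finset ι => x)) := by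
  refine closure_minimal ?_ isClosed_closure
  rintro _ ⟨n, h, y, rfl⟩
  have hcont : Continuous fun z : X => dcube T n h z :=
    continuous_pi fun A => continuous_zpow T _
  refine map_mem_closure hcont (hT x y) ?_
  rintro _ ⟨m, rfl⟩
  refine ⟨fun o => o.elim (n + m) h, ?_⟩
  funext A
  simp only [cact, dcube, expo, Option.elim]
  rw [← zpow_add_apply]
  congr 2
  ring

variable [CompactSpace X] [T2Space X] [CompactSpace Y] [T2Space Y]

theorem exists_cpact_const (hT : IsMin T) (x : X) {c : Finset ι → X} (hc : c ∈ Cub T ι) :
    ∃ p : Ultrafilter (Option ι → ℤ), cpact T p (fun _ => x) = c :=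
  exists_cpact_of_mem_closure (Cub_subset_closure hT x hc)

/-- 1.4 : `βℤ^{1+ι}` acts transitively on the cubes -/
theorem exists_cpact (hT : IsMin T) (hd : DistalU T) {c d : Finset ι → X} (hc : c ∈ Cub T ι)
    (hd' : d ∈ Cub T ι) : ∃ p : Ultrafilter (Option ι → ℤ), cpact T p c = d := by
  obtain ⟨p, hp⟩ := exists_cpact_const hT (c ∅) hc
  obtain ⟨r, hr⟩ := exists_cpact_const hT (c ∅) hd'
  obtain ⟨q, hq⟩ := hd.exists_cinv p
  refine ⟨r + q, ?_⟩
  rw [cpact_add]
  nth_rewrite 1 [← hp]
  rw [(hq _).1, hr]

/-- Coordinatewise maps which commute with `T` and send one cube to a cube preserve the cubes. -/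
theorem coord_mem (hT : IsMin T) (hd : DistalU T) {g : Finset ι → X → X}
    (hg : ∀ A, Continuous (g A)) (hgT : ∀ A x, g A (T x) = T (g A x)) {c : Finset ι → X}
    (hc : c ∈ Cub T ι) (hgc : (fun A => g A (c A)) ∈ Cub T ι) {d : Finset ι → X}
    (hd' : d ∈ Cub T ι) : (fun A => g A (d A)) ∈ Cub T ι := by
  obtain ⟨p, rfl⟩ := exists_cpact hT hd hc hd'
  rw [cpact_comm hg hgT]
  exact cpact_mem p hgc

end

/-! ### Pairs -/

section pairs
variable {X : Type*} [TopologicalSpace X] {T : X ≃ₜ X} {ι : Type*} [DecidableEq ι]

omit [TopologicalSpace X] in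
theorem pairCube_of_mem {u v : Finset ι → X} {A : Finset (Option ι)} (h : none ∈ A) :
    pairCube u v A = v A.eraseNone := if_pos h

omit [TopologicalSpace X] in
theorem pairCube_of_notMem {u v : Finset ι → X} {A : Finset (Option ι)} (h : none ∉ A) :
    pairCube u v A = u A.eraseNone := if_neg h

omit [TopologicalSpace X] in
theorem pairCube_lo (u v : Finset ι → X) (A : Finset ι) :
    pairCube u v (A.map Function.Embedding.some) = u A := by
  rw [pairCube_of_notMem (by simp), Finset.eraseNone_map_some]

omit [TopologicalSpace X] in
theorem pairCube_up (u v : Finset ι → X) (A : Finset ι) :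
    pairCube u v (Finset.insertNone A) = v A := by
  rw [pairCube_of_mem (by simp), Finset.eraseNone_insertNone]

omit [TopologicalSpace X] in
theorem pairCube_diag_eq (u : Finset ι → X) : pairCube u u = fun A => u A.eraseNone := by
  funext A
  by_cases h : none ∈ A
  · rw [pairCube_of_mem h]
  · rw [pairCube_of_notMem h]

variable [Fintype ι]

theorem affMap_lo : AffMap fun A : Finset ι => A.map Function.Embedding.some := by
  refine affMap_of_coord fun o => ?_
  cases o with
  | none => right; left; intro A; simp
  | some i => right; right; left; exact ⟨i, fun A => by simp⟩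

theorem affMap_up : AffMap fun A : Finset ι => Finset.insertNone A := by
  refine affMap_of_coord fun o => ?_
  cases o with
  | none => left; intro A; simp
  | some i => right; right; left; exact ⟨i, fun A => by simp⟩

theorem affMap_eraseNone : AffMap fun A : Finset (Option ι) => A.eraseNone := by
  refine affMap_of_coord fun i => ?_
  right; right; left
  exact ⟨some i, fun A => by simp⟩

theorem Cub_lower {u v : Finset ι → X} (h : pairCube u v ∈ Cub T (Option ι)) : u ∈ Cub T ι := by
  have := Cub_comp affMap_lo h
  simpa only [pairCube_lo] using this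

theorem Cub_upper {u v : Finset ι → X} (h : pairCube u v ∈ Cub T (Option ι)) : v ∈ Cub T ι := by
  have := Cub_comp affMap_up h
  simpa only [pairCube_up] using this

theorem pairCube_diag {u : Finset ι → X} (h : u ∈ Cub T ι) : pairCube u u ∈ Cub T (Option ι) := by
  rw [pairCube_diag_eq]
  exact Cub_comp affMap_eraseNone h

theorem pairCube_swap {u v : Finset ι → X} (h : pairCube u v ∈ Cub T (Option ι)) :
    pairCube v u ∈ Cub T (Option ι) := by
  have haff : AffMap fun A : Finset (Option ι) => symmDiff A {none} := by
    refine affMap_of_coord fun o => ?_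
    cases o with
    | none =>
      right; right; right
      exact ⟨none, fun A => by simp [Finset.mem_symmDiff]⟩
    | some i =>
      right; right; left
      exact ⟨some i, fun A => by simp [Finset.mem_symmDiff]⟩
  have h1 := Cub_comp haff h
  have h2 : (fun A : Finset (Option ι) => pairCube u v (symmDiff A {none})) = pairCube v u := by
    funext A
    have he : (symmDiff A {none}).eraseNone = A.eraseNone := by
      ext i
      simp [Finset.mem_symmDiff]
    by_cases hA : none ∈ A
    · rw [pairCube_of_mem hA, pairCube_of_notMem (by simp [Finset.mem_symmDiff, hA]), he]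
    · rw [pairCube_of_notMem hA, pairCube_of_mem (by simp [Finset.mem_symmDiff, hA]), he]
  rwa [h2] at h1

/-- restriction of the exponents to the lower facet -/
def resV (v : Option (Option ι) → ℤ) : Option ι → ℤ := fun o => o.elim (v none) fun i => v (some (some i))

/-- extension of the exponents by `0` in the new direction -/
def extV (v : Option ι → ℤ) : Option (Option ι) → ℤ :=
  fun o => o.elim (v none) fun o' => o'.elim 0 fun i => v (some i)

omit [Fintype ι] [DecidableEq ι] in
theorem expoV_resV (A : Finset ι) (v : Option (Option ι) → ℤ) :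
    expoV (A.map Function.Embedding.some) v = expoV A (resV v) := by
  simp [expoV, expo, resV, Finset.sum_map]

omit [Fintype ι] in
theorem expoV_extV (B : Finset (Option ι)) (v : Option ι → ℤ) :
    expoV B (extV v) = expoV B.eraseNone v := by
  simp only [expoV, expo, extV]
  rw [Finset.sum_eraseNone]
  simp only [Option.elim_none, Option.elim_some]
  congr 1
  refine Finset.sum_congr rfl fun o _ => ?_
  cases o <;> rfl

variable [CompactSpace X] [T2Space X]

/-- 1.5 : gluing of pairs -/
theorem glue_pair (hT : IsMin T) (hd : DistalU T) {u v w : Finset ι → X}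
    (h1 : pairCube u v ∈ Cub T (Option ι)) (h2 : pairCube v w ∈ Cub T (Option ι)) :
    pairCube u w ∈ Cub T (Option ι) := by
  obtain ⟨P, hP⟩ := exists_cpact hT hd (pairCube_diag (Cub_lower h2)) h2
  obtain ⟨Q₀, hQ₀⟩ := hd.exists_cinv (P.map resV)
  have hlow : ∀ (c : Finset (Option ι) → X) (A : Finset ι),
      cpact T P c (A.map Function.Embedding.some) =
        cpact T (P.map resV) (fun A => c (A.map Function.Embedding.some)) A := by
    intro c A
    simp only [cpact]
    congr 1
    rw [Ultrafilter.map_map]
    congr 1
    funext v
    exact expoV_resV A v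
  have hQ : ∀ (c : Finset (Option ι) → X) (B : Finset (Option ι)),
      cpact T (Q₀.map extV) c B = pact T (Q₀.map (expoV B.eraseNone)) (c B) := by
    intro c B
    simp only [cpact]
    congr 1
    rw [Ultrafilter.map_map]
    congr 1
    funext v
    exact expoV_extV B v
  have hv : cpact T (P.map resV) v = v := by
    funext A
    have h3 := congrFun hP (A.map Function.Embedding.some)
    rw [hlow, pairCube_lo] at h3
    simpa only [pairCube_lo] using h3
  have hQv : cpact T Q₀ v = v := by
    have h3 := (hQ₀ v).1
    rwa [hv] at h3
  have key : cpact T P (cpact T (Q₀.map extV) (pairCube u v)) = pairCube u w := by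
    funext B
    by_cases hB : none ∈ B
    · have h3 : cpact T (Q₀.map extV) (pairCube u v) B = pairCube v v B := by
        rw [hQ, pairCube_of_mem hB, pairCube_of_mem hB]
        exact congrFun hQv B.eraseNone
      have h4 := congrFun hP B
      rw [pairCube_of_mem hB] at h4 ⊢
      rw [← h4]
      simp only [cpact] at h3 ⊢
      rw [h3]
    · have hB' : B = B.eraseNone.map Function.Embedding.some := by
        ext o
        cases o with
        | none => simpa using hB
        | some i => simp
      rw [pairCube_of_notMem hB]
      rw [hB', hlow, Finset.eraseNone_map_some]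
      have h3 : (fun A : Finset ι => cpact T (Q₀.map extV) (pairCube u v)
          (A.map Function.Embedding.some)) = cpact T Q₀ u := by
        funext A
        rw [hQ, pairCube_lo, Finset.eraseNone_map_some]; rfl
      rw [h3, (hQ₀ u).2]
  rw [← key]
  exact cpact_mem _ (cpact_mem _ h1)

/-- gluing in a direction `i` -/
theorem glue_mem (hT : IsMin T) (hd : DistalU T) (i : ι) {c c' : Finset ι → X}
    (hc : c ∈ Cub T ι) (hc' : c' ∈ Cub T ι) (h : ∀ A, i ∉ A → c (insert i A) = c' A) :
    glue i c c' ∈ Cub T ι := by
  set ψ : Finset (Option ι) → Finset ι :=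
    fun B => if none ∈ B then insert i B.eraseNone else B.eraseNone.erase i with hψ
  have hψmem : ∀ B j, j ∈ ψ B ↔ (if j = i then none ∈ B else some j ∈ B) := by
    intro B j
    by_cases hB : none ∈ B <;> by_cases hj : j = i <;> simp [hψ, hB, hj]
  have haff : AffMap ψ := by
    refine affMap_of_coord fun j => ?_
    right; right; left
    by_cases hj : j = i
    · exact ⟨none, fun B => by rw [hψmem, if_pos hj]⟩
    · exact ⟨some j, fun B => by rw [hψmem, if_neg hj]⟩
  set u : Finset ι → X := fun A => c (A.erase i)
  set v : Finset ι → X := fun A => c (insert i A)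
  set w : Finset ι → X := fun A => c' (insert i A)
  have hv : v = fun A => c' (A.erase i) := by
    funext A
    have h3 := h (A.erase i) (Finset.notMem_erase i A)
    have h4 : insert i (A.erase i) = insert i A := by
      ext j
      by_cases hj : j = i <;> simp [hj]
    rw [h4] at h3
    exact h3
  have h1 : pairCube u v ∈ Cub T (Option ι) := by
    have h3 := Cub_comp haff hc
    have h4 : (fun B => c (ψ B)) = pairCube u v := by
      funext B
      by_cases hB : none ∈ B <;> simp [hψ, hB, pairCube, u, v]
    rwa [h4] at h3
  have h2 : pairCube v w ∈ Cub T (Option ι) := by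
    have h3 := Cub_comp haff hc'
    have h4 : (fun B => c' (ψ B)) = pairCube v w := by
      funext B
      rw [hv]
      by_cases hB : none ∈ B <;> simp [hψ, hB, pairCube, w]
    rwa [h4] at h3
  have h3 := glue_pair hT hd h1 h2
  set χ : Finset ι → Finset (Option ι) := fun A =>
    if i ∈ A then Finset.insertNone A else A.map Function.Embedding.some with hχ
  have haff2 : AffMap χ := by
    refine affMap_of_coord fun o => ?_
    right; right; left
    cases o with
    | none => exact ⟨i, fun A => by by_cases hA : i ∈ A <;> simp [hχ, hA]⟩
    | some j => exact ⟨j, fun A => by by_cases hA : i ∈ A <;> simp [hχ, hA]⟩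
  have h4 := Cub_comp haff2 h3
  have h5 : (fun A => pairCube u w (χ A)) = glue i c c' := by
    funext A
    by_cases hA : i ∈ A
    · simp only [hχ, hA, if_true, glue, pairCube_up, w]
      rw [Finset.insert_eq_of_mem hA]
    · simp only [hχ, hA, if_false, glue, pairCube_lo, u]
      rw [Finset.erase_eq_of_notMem hA]
  rwa [h5] at h4

end pairs

end MP_e326dc_an
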