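import Pool.Agent.Lib.MP_e326dc_an.Cube.Ult

set_option autoImplicit false

/-!
# Basic facts on the cubes `Cub T ι` (section 1.1 and 1.6 of NIL_struct4)
-/

open Filter Topology

namespace MP_e326dc_an

attribute [local instance] Ultrafilter.add Ultrafilter.addSemigroup

section
variable {X Y : Type*} [TopologicalSpace X] [TopologicalSpace Y] {T : X ≃ₜ X} {S : Y ≃ₜ Y}
variable {ι κ : Type*}

theorem isClosed_Cub : IsClosed (Cub T ι) := isClosed_closure

theorem dcube_mem (n : ℤ) (h : ι → ℤ) (x : X) : dcube T n h x ∈ Cub T ι :=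
  subset_closure ⟨n, h, x, rfl⟩

theorem const_mem_Cub (x : X) : (fun _ : Finset ι => x) ∈ Cub T ι := by
  have h := dcube_mem (T := T) (0 : ℤ) (fun _ : ι => (0 : ℤ)) x
  have h2 : dcube T (0 : ℤ) (fun _ : ι => (0 : ℤ)) x = fun _ : Finset ι => x := by
    funext A
    simp [dcube, expo]
  rwa [h2] at h

/-- affine maps of cubes -/
theorem Cub_comp {ψ : Finset κ → Finset ι} (hψ : AffMap ψ) {c : Finset ι → X}
    (hc : c ∈ Cub T ι) : (fun A => c (ψ A)) ∈ Cub T κ := by
  have hcont : Continuous fun c : Finset ι → X => (fun A => c (ψ A)) :=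
    continuous_pi fun A => continuous_apply (ψ A)
  refine map_mem_closure hcont hc ?_
  rintro _ ⟨n, h, x, rfl⟩
  obtain ⟨m, h', hh⟩ := hψ h
  refine ⟨n + m, h', x, ?_⟩
  funext A
  simp only [dcube, expo]
  rw [hh, add_assoc]

/-- functoriality -/
theorem Cub_map {φ : X → Y} (hφ : Continuous φ) (h : ∀ x, φ (T x) = S (φ x))
    {c : Finset ι → X} (hc : c ∈ Cub T ι) : (fun A => φ (c A)) ∈ Cub S ι := by
  have hcont : Continuous fun c : Finset ι → X => (fun A => φ (c A)) :=
    continuous_pi fun A => hφ.comp (continuous_apply A)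
  refine map_mem_closure hcont hc ?_
  rintro _ ⟨n, k, x, rfl⟩
  refine ⟨n, k, φ x, ?_⟩
  funext A
  exact equi_zpow h _ x

/-- cubes lift through factor maps -/
theorem Cub_lift [CompactSpace X] [T2Space Y] {φ : X → Y} (hφ : Continuous φ)
    (hs : Function.Surjective φ) (h : ∀ x, φ (T x) = S (φ x))
    {c : Finset ι → Y} (hc : c ∈ Cub S ι) : ∃ d ∈ Cub T ι, (fun A => φ (d A)) = c := by
  have hcont : Continuous fun c : Finset ι → X => (fun A => φ (c A)) :=
    continuous_pi fun A => hφ.comp (continuous_apply A)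
  have hcl : IsClosed ((fun c : Finset ι → X => (fun A => φ (c A))) '' Cub T ι) :=
    (isClosed_Cub.isCompact.image hcont).isClosed
  have hsub : Cub S ι ⊆ (fun c : Finset ι → X => (fun A => φ (c A))) '' Cub T ι := by
    refine closure_minimal ?_ hcl
    rintro _ ⟨n, k, y, rfl⟩
    obtain ⟨x, rfl⟩ := hs y
    refine ⟨dcube T n k x, dcube_mem n k x, ?_⟩
    funext A
    exact equi_zpow h _ x
  obtain ⟨d, hd, rfl⟩ := hsub hc
  exact ⟨d, hd, rfl⟩

theorem cact_mem (v : Option ι → ℤ) {c : Finset ι → X} (hc : c ∈ Cub T ι) :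
    cact T v c ∈ Cub T ι := by
  refine map_mem_closure (continuous_cact T v) hc ?_
  rintro _ ⟨n, k, x, rfl⟩
  refine ⟨v none + n, (fun i => v (some i)) + k, x, ?_⟩
  funext A
  simp only [dcube, cact]
  rw [expo_add, zpow_add_apply]

theorem cpact_mem [CompactSpace X] [T2Space X] (p : Ultrafilter (Option ι → ℤ))
    {c : Finset ι → X} (hc : c ∈ Cub T ι) : cpact T p c ∈ Cub T ι :=
  isClosed_Cub.mem_of_tendsto (tendsto_cpact T p c) (Eventually.of_forall fun v => cact_mem v hc)

/-- coordinate form of affine maps -/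
theorem affMap_of_coord [Fintype ι] [DecidableEq ι] [DecidableEq κ] {ψ : Finset κ → Finset ι}
    (h : ∀ i, (∀ A, i ∈ ψ A) ∨ (∀ A, i ∉ ψ A) ∨ (∃ j, ∀ A, i ∈ ψ A ↔ j ∈ A) ∨
      (∃ j, ∀ A, i ∈ ψ A ↔ j ∉ A)) : AffMap ψ := by
  intro k
  have key : ∀ i, ∃ (m : ℤ) (t : κ → ℤ), ∀ A : Finset κ,
      (if i ∈ ψ A then k i else 0) = m + ∑ j ∈ A, t j := by
    intro i
    rcases h i with h | h | ⟨j, h⟩ | ⟨j, h⟩
    · exact ⟨k i, fun _ => 0, fun A => by simp [h A]⟩
    · exact ⟨0, fun _ => 0, fun A => by simp [h A]⟩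
    · refine ⟨0, fun j' => if j' = j then k i else 0, fun A => ?_⟩
      simp only [h A, Finset.sum_ite_eq', zero_add]
    · refine ⟨k i, fun j' => if j' = j then - k i else 0, fun A => ?_⟩
      simp only [h A, Finset.sum_ite_eq']
      by_cases hj : j ∈ A <;> simp [hj]
  choose m t ht using key
  refine ⟨∑ i, m i, fun j => ∑ i, t i j, fun A => ?_⟩
  have h1 : ∑ i ∈ ψ A, k i = ∑ i, (if i ∈ ψ A then k i else 0) := by
    rw [Finset.sum_ite_mem, Finset.univ_inter]
  rw [h1, Finset.sum_comm (s := A), ← Finset.sum_add_distrib]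
  exact Finset.sum_congr rfl fun i _ => ht i A

theorem AffMap.comp {μ : Type*} {ψ : Finset κ → Finset ι} {χ : Finset μ → Finset κ}
    (hψ : AffMap ψ) (hχ : AffMap χ) : AffMap fun A => ψ (χ A) := by
  intro h
  obtain ⟨m, h', h1⟩ := hψ h
  obtain ⟨m', h'', h2⟩ := hχ h'
  exact ⟨m + m', h'', fun A => by rw [h1, h2, add_assoc]⟩

/-- Two cubes of dimension at least `s + 1` which agree off one vertex are equal. -/
theorem UniqCub.ext {s : ℕ} (hs : UniqCub T s) [Fintype ι] [DecidableEq ι]
    (hι : s + 1 ≤ Fintype.card ι) {c c' : Finset ι → X} (hc : c ∈ Cub T ι) (hc' : c' ∈ Cub T ι)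
    (A₀ : Finset ι) (h : ∀ A, A ≠ A₀ → c A = c' A) : c = c' := by
  obtain ⟨e⟩ : Nonempty (Fin (s + 1) ↪ ι) :=
    Function.Embedding.nonempty_of_card_le (by simpa using hι)
  set ψ : Finset (Fin (s + 1)) → Finset ι := fun A => symmDiff A₀ (Aᶜ.map e) with hψ
  have hmem : ∀ A i, i ∈ ψ A ↔ ((i ∈ A₀) ↔ ¬ ∃ j, j ∉ A ∧ e j = i) := by
    intro A i
    simp only [hψ, Finset.mem_symmDiff, Finset.mem_map, Finset.mem_compl]
    by_cases h1 : i ∈ A₀ <;> by_cases h2 : ∃ j, j ∉ A ∧ e j = i <;> simp only [h1, h2] <;> simp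
  have haff : AffMap ψ := by
    refine affMap_of_coord fun i => ?_
    by_cases hi : ∃ j, e j = i
    · obtain ⟨j, rfl⟩ := hi
      have h1 : ∀ A : Finset (Fin (s + 1)), (∃ j', j' ∉ A ∧ e j' = e j) ↔ j ∉ A := by
        intro A
        constructor
        · rintro ⟨j', h1, h2⟩
          rwa [e.injective h2] at h1
        · exact fun h => ⟨j, h, rfl⟩
      by_cases h0 : e j ∈ A₀
      · right; right; left
        exact ⟨j, fun A => by rw [hmem, h1]; tauto⟩
      · right; right; right
        exact ⟨j, fun A => by rw [hmem, h1]; tauto⟩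
    · have h1 : ∀ A : Finset (Fin (s + 1)), ¬ ∃ j', j' ∉ A ∧ e j' = i := fun A ⟨j', _, h2⟩ => hi ⟨j', h2⟩
      by_cases h0 : i ∈ A₀
      · left
        exact fun A => by rw [hmem]; exact ⟨fun _ => h1 A, fun _ => h0⟩
      · right; left
        exact fun A => by rw [hmem]; exact fun h2 => h0 (h2.mpr (h1 A))
  have huniv : ψ Finset.univ = A₀ := by
    simp [hψ]
  have hne : ∀ A, A ≠ Finset.univ → ψ A ≠ A₀ := by
    intro A hA heq
    have h1 : Aᶜ.map e = ∅ := by
      have h2 : symmDiff A₀ (Aᶜ.map e) = symmDiff A₀ ∅ := by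
        have : symmDiff A₀ (∅ : Finset ι) = A₀ := by simp
        rw [this]; exact heq
      exact (symmDiff_right_injective A₀) h2
    rw [Finset.map_eq_empty] at h1
    exact hA (by simpa using congrArg compl h1)
  have h3 := hs _ (Cub_comp haff hc) _ (Cub_comp haff hc') (fun A hA => h _ (hne A hA))
  funext A
  by_cases hA : A = A₀
  · have := congrFun h3 Finset.univ
    simp only [huniv] at this
    rw [hA, this]
  · exact h A hA

theorem UniqCub.mono {s s' : ℕ} (hs : UniqCub T s) (h : s ≤ s') : UniqCub T s' :=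
  fun _ hc _ hc' hcc => hs.ext (by simpa using h) hc hc' Finset.univ hcc

/-- the power `T^m` on the facet `{A : i ∈ A}` -/
theorem faceAct_eq_cact [DecidableEq ι] (m : ℤ) (i : ι) (c : Finset ι → X) :
    faceAct (fun x => (T ^ m) x) {i} c =
      cact T (fun o => if o = some i then m else 0) c := by
  funext A
  simp only [faceAct, cact, expo, Finset.singleton_subset_iff]
  by_cases h : i ∈ A
  · have : ∑ j ∈ A, (if (some j : Option ι) = some i then m else 0) = m := by
      simp [h]
    simp [h]
  · have : ∑ j ∈ A, (if (some j : Option ι) = some i then m else 0) = 0 := by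
      refine Finset.sum_eq_zero fun j hj => ?_
      rw [if_neg]
      rintro h2
      rw [Option.some_inj] at h2
      exact h (h2 ▸ hj)
    simp [h]

/-- ultrafilters act on facets -/
theorem pact_facet_mem [CompactSpace X] [T2Space X] [DecidableEq ι] (p : Ultrafilter ℤ) (i : ι)
    {c : Finset ι → X} (hc : c ∈ Cub T ι) : faceAct (pact T p) {i} c ∈ Cub T ι := by
  have h : Tendsto (fun m : ℤ => faceAct (fun x => (T ^ m) x) {i} c) p
      (𝓝 (faceAct (pact T p) {i} c)) := by
    rw [tendsto_pi_nhds]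
    intro A
    by_cases hA : i ∈ A
    · simpa [faceAct, hA] using tendsto_pact T p (c A)
    · simp [faceAct, hA]
  refine isClosed_Cub.mem_of_tendsto h (Eventually.of_forall fun m => ?_)
  rw [faceAct_eq_cact]
  exact cact_mem _ hc

/-- ultrafilters act diagonally -/
theorem pact_diag_mem [CompactSpace X] [T2Space X] (p : Ultrafilter ℤ)
    {c : Finset ι → X} (hc : c ∈ Cub T ι) : (fun A => pact T p (c A)) ∈ Cub T ι := by
  have h : Tendsto (fun m : ℤ => (fun A => (T ^ m) (c A))) p (𝓝 (fun A => pact T p (c A))) := by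
    rw [tendsto_pi_nhds]
    exact fun A => tendsto_pact T p (c A)
  refine isClosed_Cub.mem_of_tendsto h (Eventually.of_forall fun m => ?_)
  have := cact_mem (T := T) (fun o : Option ι => if o = none then m else 0) hc
  have h2 : cact T (fun o : Option ι => if o = none then m else 0) c = fun A => (T ^ m) (c A) := by
    funext A
    simp [cact, expo]
  rwa [h2] at this

/-! ### Order `s` implies distality (1.2) -/

theorem UniqCub.distalU [CompactSpace X] [T2Space X] {s : ℕ} (hs : UniqCub T s) : DistalU T := by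
  intro u hu x
  have key : ∀ B : Finset (Fin (s + 1)),
      (fun A : Finset (Fin (s + 1)) => if Disjoint A B then x else pact T u x) ∈
        Cub T (Fin (s + 1)) := by
    intro B
    induction B using Finset.induction_on with
    | empty => simpa using const_mem_Cub (T := T) x
    | insert a B ha ih =>
      have h1 := pact_facet_mem u a ih
      have h2 : faceAct (pact T u) {a}
          (fun A : Finset (Fin (s + 1)) => if Disjoint A B then x else pact T u x) =
          fun A => if Disjoint A (insert a B) then x else pact T u x := by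
        funext A
        simp only [faceAct, Finset.singleton_subset_iff, Finset.disjoint_insert_right]
        by_cases h : a ∈ A
        · by_cases h' : Disjoint A B
          · simp [h, h']
          · simp only [h, h', if_true, if_false, not_true_eq_false, false_and]
            rw [← pact_add, hu]
        · simp [h]
      rwa [h2] at h1
  have h1 := key Finset.univ
  have h2 := const_mem_Cub (T := T) (ι := Fin (s + 1)) (pact T u x)
  have h3 := hs.ext (by simp) h1 h2 ∅ (fun A hA => by
    have : ¬ Disjoint A Finset.univ := by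
      obtain ⟨a, ha⟩ := Finset.nonempty_iff_ne_empty.mpr hA
      exact Finset.not_disjoint_iff.mpr ⟨a, ha, Finset.mem_univ a⟩
    simp [this])
  have h4 := congrFun h3 ∅
  simp at h4
  exact h4.symm

end

end MP_e326dc_an
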