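import Pool.Agent.Lib.MP_e326dc_an.Cube.StrDefs

set_option autoImplicit false

/-!
# Minimal subsets and idempotents
-/

open Filter Topology

namespace MP_e326dc_an

attribute [local instance] Ultrafilter.add Ultrafilter.addSemigroup

variable {X : Type*} [TopologicalSpace X] [CompactSpace X] [T2Space X] {T : X ≃ₜ X}

/-- invariance under `T` and its inverse gives invariance under the powers -/
theorem zpow_mem_of_inv {A : Set X} (hA : ∀ x, x ∈ A ↔ T x ∈ A) (n : ℤ) {x : X} (hx : x ∈ A) :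
    (T ^ n) x ∈ A := by
  induction n using Int.induction_on generalizing x with
  | zero => simpa using hx
  | succ n ih =>
    rw [zpow_add_apply, zpow_one]
    exact ih ((hA x).mp hx)
  | pred n ih =>
    rw [sub_eq_add_neg, zpow_add_apply, zpow_neg_one]
    refine ih ?_
    rw [hA]
    have : T (T⁻¹ x) = x := T.apply_symm_apply x
    rwa [this]

theorem pact_mem_of_inv {A : Set X} (hcl : IsClosed A) (hA : ∀ x, x ∈ A ↔ T x ∈ A)
    (p : Ultrafilter ℤ) {x : X} (hx : x ∈ A) : pact T p x ∈ A :=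
  pact_mem_of_isClosed hcl (Eventually.of_forall fun n => zpow_mem_of_inv hA n hx)

/-- If a closed invariant set meets the orbit closure of `x₀`, some idempotent sends `x₀` to it. -/
theorem exists_idem_pact_mem {A : Set X} (hcl : IsClosed A) (hA : ∀ x, x ∈ A ↔ T x ∈ A) {x₀ : X}
    (hne : (A ∩ orbC T x₀).Nonempty) :
    ∃ p : Ultrafilter ℤ, p + p = p ∧ pact T p x₀ ∈ A := by
  obtain ⟨y, hyA, hy⟩ := hne
  obtain ⟨q, rfl⟩ := exists_pact_of_mem_closure hy
  obtain ⟨p, hp, hpp⟩ := exists_idem_ultra {p : Ultrafilter ℤ | pact T p x₀ ∈ A} ⟨q, hyA⟩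
    (hcl.preimage (continuous_pact T x₀)) (fun p _ r hr => by
      show pact T (p + r) x₀ ∈ A
      rw [pact_add]
      exact pact_mem_of_inv hcl hA p hr)
  exact ⟨p, hpp, hp⟩

/-- Every nonempty closed invariant set contains a minimal one: a nonempty closed invariant set `M` in
which all orbits are dense. -/
theorem exists_minimal_sub {A : Set X} (hcl : IsClosed A) (hA : ∀ x, x ∈ A ↔ T x ∈ A)
    (hne : A.Nonempty) :
    ∃ M : Set X, M ⊆ A ∧ IsClosed M ∧ M.Nonempty ∧ (∀ x, x ∈ M ↔ T x ∈ M) ∧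
      ∀ x ∈ M, orbC T x = M := by
  set F : Set (Set X) := {B | B ⊆ A ∧ IsClosed B ∧ B.Nonempty ∧ ∀ x, x ∈ B ↔ T x ∈ B} with hF
  have hzorn : ∃ M, M ⊆ A ∧ Minimal (· ∈ F) M := by
    refine zorn_superset_nonempty F (fun c hc hchain hcne => ?_) A ⟨subset_rfl, hcl, hne, hA⟩
    refine ⟨⋂₀ c, ⟨?_, ?_, ?_, ?_⟩, fun B hB => Set.sInter_subset_of_mem hB⟩
    · obtain ⟨B, hB⟩ := hcne
      exact (Set.sInter_subset_of_mem hB).trans (hc hB).1
    · exact isClosed_sInter fun B hB => (hc hB).2.1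
    · have hdir : DirectedOn (· ⊇ ·) c := by
        intro B hB B' hB'
        rcases hchain.total hB hB' with h | h
        · exact ⟨B, hB, subset_rfl, h⟩
        · exact ⟨B', hB', h, subset_rfl⟩
      have : Nonempty c := hcne.to_subtype
      exact IsCompact.nonempty_sInter_of_directed_nonempty_isCompact_isClosed hdir
        (fun B hB => (hc hB).2.2.1) (fun B hB => (hc hB).2.1.isCompact) (fun B hB => (hc hB).2.1)
    · intro x
      simp only [Set.mem_sInter]
      exact ⟨fun h B hB => ((hc hB).2.2.2 x).mp (h B hB),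
        fun h B hB => ((hc hB).2.2.2 x).mpr (h B hB)⟩
  obtain ⟨M, hMA, hM⟩ := hzorn
  refine ⟨M, hMA, hM.prop.2.1, hM.prop.2.2.1, hM.prop.2.2.2, fun x hx => ?_⟩
  have hsub : orbC T x ⊆ M := by
    refine closure_minimal ?_ hM.prop.2.1
    rintro _ ⟨n, rfl⟩
    exact zpow_mem_of_inv hM.prop.2.2.2 n hx
  refine Set.Subset.antisymm hsub ?_
  refine hM.le_of_le ⟨hsub.trans hMA, isClosed_closure, ?_, orbC_inv T x⟩ hsub
  exact ⟨x, subset_closure ⟨0, by simp⟩⟩

end MP_e326dc_an
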