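import Pool.Agent.Lib.MP_e326dc_an.Cube.StrDefs

set_option autoImplicit false

/-!
# Null sequences and sets of upper Banach density zero
-/

open Filter Topology
open scoped ComplexConjugate

namespace MP_e326dc_an

section avgapi

theorem win_card (M : ℤ) (L : ℕ) : (win M L).card = L := by simp [win]

theorem avg_real (M : ℤ) (L : ℕ) (f : ℤ → ℝ) :
    avg (win M L) f = (L : ℝ)⁻¹ * ∑ i ∈ win M L, f i := by
  rw [avg, win_card, smul_eq_mul]

theorem avg_mono {M : ℤ} {L : ℕ} {f g : ℤ → ℝ} (h : ∀ n, f n ≤ g n) :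
    avg (win M L) f ≤ avg (win M L) g := by
  rw [avg_real, avg_real]
  exact mul_le_mul_of_nonneg_left (Finset.sum_le_sum fun i _ => h i) (by positivity)

theorem avg_add_real (M : ℤ) (L : ℕ) (f g : ℤ → ℝ) :
    avg (win M L) (fun n => f n + g n) = avg (win M L) f + avg (win M L) g := by
  rw [avg_real, avg_real, avg_real, Finset.sum_add_distrib, mul_add]

theorem avg_mul_real (M : ℤ) (L : ℕ) (c : ℝ) (f : ℤ → ℝ) :
    avg (win M L) (fun n => c * f n) = c * avg (win M L) f := by
  rw [avg_real, avg_real, ← Finset.mul_sum]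
  ring

theorem avg_nonneg_real {M : ℤ} {L : ℕ} {f : ℤ → ℝ} (h : ∀ n, 0 ≤ f n) :
    0 ≤ avg (win M L) f := by
  rw [avg_real]
  exact mul_nonneg (by positivity) (Finset.sum_nonneg fun i _ => h i)

theorem avg_const_le {M : ℤ} {L : ℕ} {c : ℝ} (hc : 0 ≤ c) :
    avg (win M L) (fun _ => c) ≤ c := by
  rw [avg_real, Finset.sum_const, win_card, nsmul_eq_mul]
  rcases Nat.eq_zero_or_pos L with rfl | h
  · simpa using hc
  · have : (L : ℝ) ≠ 0 := by positivity
    rw [← mul_assoc, inv_mul_cancel₀ this, one_mul]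

theorem avg_shift_real (M : ℤ) (L : ℕ) (f : ℤ → ℝ) (k : ℤ) :
    avg (win M L) (fun n => f (n + k)) = avg (win (M + k) L) f := by
  rw [avg_real, avg_real]
  congr 1
  refine Finset.sum_bij (fun n _ => n + k) ?_ ?_ ?_ ?_
  · intro n hn
    simp only [win, Finset.mem_Ico] at hn ⊢
    constructor <;> omega
  · intro n _ n' _ h
    exact add_right_cancel h
  · intro n hn
    simp only [win, Finset.mem_Ico] at hn
    refine ⟨n - k, ?_, by ring⟩
    simp only [win, Finset.mem_Ico]
    constructor <;> omega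
  · intro n _
    rfl

end avgapi

section nullapi
variable {E : Type*} [SeminormedAddCommGroup E]

theorem null_iff {f : ℤ → E} : Null f ↔ ∀ ε : ℝ, 0 < ε → ∃ N : ℕ, ∀ (M : ℤ) (L : ℕ), N ≤ L →
    avg (win M L) (fun n => ‖f n‖) ≤ ε := by
  have h : ∀ (M : ℤ) (L : ℕ), ‖avg (win M L) (fun n => ‖f n‖) - 0‖ =
      avg (win M L) (fun n => ‖f n‖) := by
    intro M L
    rw [sub_zero, Real.norm_of_nonneg (avg_nonneg_real fun n => norm_nonneg _)]
  simp only [Null, WTendsto, h]

theorem Null.add {f g : ℤ → E} (hf : Null f) (hg : Null g) : Null fun n => f n + g n := by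
  rw [null_iff] at hf hg ⊢
  intro ε hε
  obtain ⟨N, hN⟩ := hf (ε / 2) (by positivity)
  obtain ⟨N', hN'⟩ := hg (ε / 2) (by positivity)
  refine ⟨max N N', fun M L hL => ?_⟩
  have h1 := hN M L (le_trans (le_max_left _ _) hL)
  have h2 := hN' M L (le_trans (le_max_right _ _) hL)
  calc avg (win M L) (fun n => ‖f n + g n‖) ≤ avg (win M L) (fun n => ‖f n‖ + ‖g n‖) :=
        avg_mono fun n => norm_add_le _ _
    _ = avg (win M L) (fun n => ‖f n‖) + avg (win M L) (fun n => ‖g n‖) := avg_add_real _ _ _ _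
    _ ≤ ε := by linarith

theorem Null.mono {E' : Type*} [SeminormedAddCommGroup E'] {f : ℤ → E} {g : ℤ → E'} (C : ℝ)
    (hf : Null f) (h : ∀ n, ‖g n‖ ≤ C * ‖f n‖) : Null g := by
  rw [null_iff] at hf ⊢
  intro ε hε
  obtain ⟨N, hN⟩ := hf (ε / (|C| + 1)) (by positivity)
  refine ⟨N, fun M L hL => ?_⟩
  have h1 := hN M L hL
  calc avg (win M L) (fun n => ‖g n‖) ≤ avg (win M L) (fun n => (|C| + 1) * ‖f n‖) := by
        refine avg_mono fun n => (h n).trans ?_
        refine mul_le_mul_of_nonneg_right ?_ (norm_nonneg _)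
        have := le_abs_self C
        linarith
    _ = (|C| + 1) * avg (win M L) (fun n => ‖f n‖) := avg_mul_real _ _ _ _
    _ ≤ (|C| + 1) * (ε / (|C| + 1)) := mul_le_mul_of_nonneg_left h1 (by positivity)
    _ = ε := by field_simp

theorem Null.neg {f : ℤ → E} (hf : Null f) : Null fun n => - f n :=
  hf.mono 1 fun n => by rw [norm_neg, one_mul]

theorem Null.sub {f g : ℤ → E} (hf : Null f) (hg : Null g) : Null fun n => f n - g n := by
  have h := hf.add hg.neg
  refine h.mono 1 fun n => ?_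
  rw [one_mul, sub_eq_add_neg]

theorem Null.shift {f : ℤ → E} (hf : Null f) (k : ℤ) : Null fun n => f (n + k) := by
  rw [null_iff] at hf ⊢
  intro ε hε
  obtain ⟨N, hN⟩ := hf ε hε
  refine ⟨N, fun M L hL => ?_⟩
  rw [avg_shift_real M L (fun n => ‖f n‖) k]
  exact hN _ _ hL

theorem Null.zero : Null (fun _ : ℤ => (0 : E)) := by
  rw [null_iff]
  intro ε hε
  refine ⟨0, fun M L _ => ?_⟩
  simp only [norm_zero]
  exact (avg_const_le le_rfl).trans hε.le

theorem Null.of_forall_approx {f : ℤ → E}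
    (h : ∀ ε : ℝ, 0 < ε → ∃ g : ℤ → E, Null g ∧ ∀ n, ‖f n - g n‖ ≤ ε) : Null f := by
  rw [null_iff]
  intro ε hε
  obtain ⟨g, hg, hfg⟩ := h (ε / 2) (by positivity)
  rw [null_iff] at hg
  obtain ⟨N, hN⟩ := hg (ε / 2) (by positivity)
  refine ⟨N, fun M L hL => ?_⟩
  have h1 := hN M L hL
  have h2 : avg (win M L) (fun _ => ε / 2) ≤ ε / 2 := avg_const_le (by positivity)
  calc avg (win M L) (fun n => ‖f n‖) ≤ avg (win M L) (fun n => ‖g n‖ + ε / 2) := by
        refine avg_mono fun n => ?_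
        have h3 : f n = g n + (f n - g n) := by abel
        calc ‖f n‖ = ‖g n + (f n - g n)‖ := by rw [← h3]
          _ ≤ ‖g n‖ + ‖f n - g n‖ := norm_add_le _ _
          _ ≤ ‖g n‖ + ε / 2 := by linarith [hfg n]
    _ = avg (win M L) (fun n => ‖g n‖) + avg (win M L) (fun _ => ε / 2) := avg_add_real _ _ _ _
    _ ≤ ε := by linarith

theorem Null.bdd_mul {f g : ℤ → ℂ} (hf : Bdd f) (hg : Null g) : Null fun n => f n * g n := by
  obtain ⟨C, hC⟩ := hf
  refine hg.mono C fun n => ?_
  rw [norm_mul]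
  exact mul_le_mul_of_nonneg_right (hC n) (norm_nonneg _)

theorem nullSet_iff {A : Set ℤ} : NullSet A ↔ ∀ ε : ℝ, 0 < ε → ∃ N : ℕ, ∀ (M : ℤ) (L : ℕ),
    N ≤ L → avg (win M L) (A.indicator fun _ => (1 : ℝ)) ≤ ε := by
  rw [NullSet, null_iff]
  have h : ∀ n, ‖A.indicator (fun _ => (1 : ℝ)) n‖ = A.indicator (fun _ => (1 : ℝ)) n := by
    intro n
    rw [Real.norm_of_nonneg (Set.indicator_nonneg (fun _ _ => zero_le_one) n)]
  simp only [h]

/-- Markov: if `f` is null then `{|f| ≥ ε}` has upper Banach density zero. -/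
theorem Null.nullSet {f : ℤ → E} (hf : Null f) {ε : ℝ} (hε : 0 < ε) :
    NullSet {n | ε ≤ ‖f n‖} := by
  refine hf.mono ε⁻¹ fun n => ?_
  by_cases h : n ∈ {n | ε ≤ ‖f n‖}
  · rw [Set.indicator_of_mem h, norm_one]
    have h1 : ε ≤ ‖f n‖ := h
    rw [inv_mul_eq_div, le_div_iff₀ hε, one_mul]
    exact h1
  · rw [Set.indicator_of_notMem h, norm_zero]
    positivity

theorem Null.of_nullSet {f : ℤ → E} (hb : Bdd f) (h : ∀ ε : ℝ, 0 < ε → NullSet {n | ε ≤ ‖f n‖}) :
    Null f := by
  obtain ⟨C, hC⟩ := hb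
  rw [null_iff]
  intro ε hε
  have hC0 : 0 ≤ C := (norm_nonneg _).trans (hC 0)
  obtain ⟨N, hN⟩ := nullSet_iff.mp (h (ε / 2) (by positivity)) (ε / (2 * (C + 1))) (by positivity)
  refine ⟨N, fun M L hL => ?_⟩
  have h1 := hN M L hL
  have h2 : avg (win M L) (fun _ => ε / 2) ≤ ε / 2 := avg_const_le (by positivity)
  set A := {n | ε / 2 ≤ ‖f n‖} with hA
  calc avg (win M L) (fun n => ‖f n‖) ≤
        avg (win M L) (fun n => (C + 1) * A.indicator (fun _ => (1 : ℝ)) n + ε / 2) := by
        refine avg_mono fun n => ?_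
        by_cases hn : n ∈ A
        · rw [Set.indicator_of_mem hn]
          have := hC n
          linarith
        · rw [Set.indicator_of_notMem hn]
          have : ‖f n‖ < ε / 2 := not_le.mp hn
          linarith
    _ = (C + 1) * avg (win M L) (A.indicator fun _ => (1 : ℝ)) + avg (win M L) (fun _ => ε / 2) := by
        rw [avg_add_real, avg_mul_real]
    _ ≤ (C + 1) * (ε / (2 * (C + 1))) + ε / 2 := by
        have := mul_le_mul_of_nonneg_left h1 (by positivity : 0 ≤ C + 1)
        linarith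
    _ = ε := by field_simp; ring

theorem NullSet.mono {A B : Set ℤ} (hB : NullSet B) (h : A ⊆ B) : NullSet A := by
  refine Null.mono 1 hB fun n => ?_
  rw [one_mul]
  by_cases hn : n ∈ A
  · rw [Set.indicator_of_mem hn, Set.indicator_of_mem (h hn)]
  · rw [Set.indicator_of_notMem hn, norm_zero]
    exact norm_nonneg _

theorem NullSet.union {A B : Set ℤ} (hA : NullSet A) (hB : NullSet B) : NullSet (A ∪ B) := by
  refine Null.mono 1 (Null.add hA hB) fun n => ?_
  rw [one_mul]
  by_cases hn : n ∈ A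
  · by_cases hn' : n ∈ B
    · rw [Set.indicator_of_mem (Set.mem_union_left B hn), Set.indicator_of_mem hn, Set.indicator_of_mem hn']
      norm_num
    · rw [Set.indicator_of_mem (Set.mem_union_left B hn), Set.indicator_of_mem hn, Set.indicator_of_notMem hn']
      norm_num
  · by_cases hn' : n ∈ B
    · rw [Set.indicator_of_mem (Set.mem_union_right A hn'), Set.indicator_of_notMem hn, Set.indicator_of_mem hn']
      norm_num
    · have h : n ∉ A ∪ B := fun h => h.elim hn hn'
      rw [Set.indicator_of_notMem h, norm_zero]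
      exact norm_nonneg _

theorem NullSet.shift {A : Set ℤ} (hA : NullSet A) (k : ℤ) : NullSet {n | n + k ∈ A} := by
  have h := Null.shift hA k
  refine h.mono 1 fun n => ?_
  rw [one_mul]
  by_cases hn : n + k ∈ A
  · rw [Set.indicator_of_mem (show n ∈ {n | n + k ∈ A} from hn), Set.indicator_of_mem hn]
  · rw [Set.indicator_of_notMem (show n ∉ {n | n + k ∈ A} from hn), norm_zero]
    exact norm_nonneg _

theorem nullSet_empty : NullSet ∅ := by
  rw [nullSet_iff]
  intro ε hε
  refine ⟨0, fun M L _ => ?_⟩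
  simp only [Set.indicator_empty']
  exact (avg_const_le le_rfl).trans hε.le

theorem not_nullSet_univ : ¬ NullSet Set.univ := by
  intro h
  obtain ⟨N, hN⟩ := nullSet_iff.mp h (1 / 2) (by norm_num)
  have h1 := hN 0 (N + 1) (by omega)
  rw [avg_real] at h1
  simp only [Set.indicator_univ, Finset.sum_const, win_card, nsmul_eq_mul, mul_one] at h1
  have h2 : ((N + 1 : ℕ) : ℝ) ≠ 0 := by positivity
  rw [inv_mul_cancel₀ h2] at h1
  norm_num at h1

theorem NullSet.biUnion {ι : Type*} (K : Finset ι) {A : ι → Set ℤ} (h : ∀ i ∈ K, NullSet (A i)) :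
    NullSet (⋃ i ∈ K, A i) := by
  classical
  induction K using Finset.induction_on with
  | empty => simpa using nullSet_empty
  | insert a K ha ih =>
    rw [Finset.set_biUnion_insert]
    exact (h a (Finset.mem_insert_self _ _)).union
      (ih fun i hi => h i (Finset.mem_insert_of_mem hi))

/-- syndetic sets are not null -/
theorem not_nullSet_of_syndetic {A : Set ℤ} (K : Finset ℤ) (h : ∀ n : ℤ, ∃ k ∈ K, n + k ∈ A) :
    ¬ NullSet A := by
  intro hA
  have h1 : NullSet (⋃ k ∈ K, {n : ℤ | n + k ∈ A}) := NullSet.biUnion K fun k _ => hA.shift k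
  refine not_nullSet_univ (h1.mono fun n _ => ?_)
  obtain ⟨k, hk, hn⟩ := h n
  simp only [Set.mem_iUnion]
  exact ⟨k, hk, hn⟩

end nullapi

end MP_e326dc_an
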