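import Pool.Agent.Lib.MP_e326dc_an.Cube.Str1

set_option autoImplicit false

/-!
# The order of quotients (E2)
-/

open Filter Topology

namespace MP_e326dc_an

attribute [local instance] Ultrafilter.add Ultrafilter.addSemigroup

section quot
variable {X : Type*} [TopologicalSpace X] {T : X ≃ₜ X}
variable {Y : Type*} [TopologicalSpace Y] {S : Y ≃ₜ Y}
variable {C : Type*} [Group C] [MulAction C X]

theorem IsQuot.isMin {π : X → Y} (hπ : IsQuot T S C π) (hT : IsMin T) : IsMin S := by
  intro y
  obtain ⟨x, rfl⟩ := hπ.surj y
  have h1 := hπ.surj.denseRange.dense_image hπ.cont (hT x)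
  refine h1.mono ?_
  rintro _ ⟨_, ⟨n, rfl⟩, rfl⟩
  exact ⟨n, (equi_zpow hπ.equi n x).symm⟩

variable [CompactSpace X] [T2Space X] [ContinuousConstSMul C X]

/-- the reduction step : modify a cube with values in one orbit -/
theorem reduce_cube (hT : IsMin T) {l j : ℕ}
    (hl : UniqCub T l) (hC : LevelAct T C j) (x : X) :
    ∀ (n : ℕ) (e : Finset (Fin (l + 1)) → X), e ∈ Cub T (Fin (l + 1)) →
      (∀ A, A ≠ Finset.univ → ∃ g : C, e A = g • x) →
      {A : Finset (Fin (l + 1)) | A ≠ Finset.univ ∧ ¬ ∀ B, B ⊆ A → e B = x}.ncard = n →
      ∃ g : C, e Finset.univ = g • x := by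
  intro n
  induction n using Nat.strong_induction_on with
  | _ n ih =>
    intro e he hex hn
    by_cases h0 : ∀ A, A ≠ Finset.univ → e A = x
    · have h1 := hl _ he _ (const_mem_Cub (T := T) x) (fun A hA => h0 A hA)
      exact ⟨1, by rw [h1, one_smul]⟩
    · push Not at h0
      -- a minimal bad vertex
      obtain ⟨A, ⟨hA, hAx⟩, hAmin⟩ : ∃ A : Finset (Fin (l + 1)), (A ≠ Finset.univ ∧ e A ≠ x) ∧
          ∀ B, B ⊂ A → e B = x := by
        obtain ⟨A, hA⟩ := (Set.toFinite {A : Finset (Fin (l + 1)) | A ≠ Finset.univ ∧
          e A ≠ x}).exists_minimal h0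
        refine ⟨A, hA.prop, fun B hB => ?_⟩
        by_contra hBx
        have hBu : B ≠ Finset.univ := by
          rintro rfl
          exact hB.2 (Finset.subset_univ A)
        exact hB.2 (hA.le_of_le ⟨hBu, hBx⟩ hB.1)
      obtain ⟨g, hg⟩ := hex A hA
      rcases le_or_gt A.card j with hj | hj
      · -- small faces
        set e' : Finset (Fin (l + 1)) → X := faceAct (fun z => g⁻¹ • z) A e with he'
        have he'mem : e' ∈ Cub T (Fin (l + 1)) :=
          faceAct_mem_of_comm hT hl.distalU (continuous_const_smul _) (fun z => hC.comm _ _)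
            (hC.lev g⁻¹ x) A hj he
        have hex' : ∀ B, B ≠ Finset.univ → ∃ g : C, e' B = g • x := by
          intro B hB
          obtain ⟨k, hk⟩ := hex B hB
          by_cases hAB : A ⊆ B
          · exact ⟨g⁻¹ * k, by simp only [he', faceAct, if_pos hAB, hk, smul_smul]⟩
          · exact ⟨k, by simp only [he', faceAct, if_neg hAB, hk]⟩
        have hss : {B : Finset (Fin (l + 1)) | B ≠ Finset.univ ∧ ¬ ∀ D, D ⊆ B → e' D = x} ⊂
            {B : Finset (Fin (l + 1)) | B ≠ Finset.univ ∧ ¬ ∀ D, D ⊆ B → e D = x} := by
          constructor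
          · rintro B ⟨hB, hbad⟩
            refine ⟨hB, fun hgood => hbad fun D hD => ?_⟩
            have hAD : ¬ A ⊆ D := fun h => hAx (hgood A (h.trans hD))
            simp only [he', faceAct, if_neg hAD]
            exact hgood D hD
          · intro hsub
            have hmem : A ∈ {B : Finset (Fin (l + 1)) | B ≠ Finset.univ ∧
                ¬ ∀ D, D ⊆ B → e D = x} := ⟨hA, fun h => hAx (h A subset_rfl)⟩
            refine (hsub hmem).2 fun D hD => ?_
            rcases hD.eq_or_ssubset with rfl | hD'
            · simp only [he', faceAct, if_pos subset_rfl, hg, inv_smul_smul]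
            · have hAD : ¬ A ⊆ D := hD'.2
              simp only [he', faceAct, if_neg hAD]
              exact hAmin D hD'
        have hlt := Set.ncard_lt_ncard hss (Set.toFinite _)
        rw [hn] at hlt
        obtain ⟨k, hk⟩ := ih _ hlt e' he'mem hex' rfl
        refine ⟨g * k, ?_⟩
        have h1 : e' Finset.univ = g⁻¹ • e Finset.univ := by
          simp only [he', faceAct, if_pos (Finset.subset_univ A)]
        rw [h1] at hk
        rw [mul_smul, ← hk, smul_inv_smul]
      · -- large faces
        exfalso
        have hcard : Fintype.card (Fin (j + 1)) ≤ Fintype.card A := by simpa using hj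
        obtain ⟨f⟩ := Function.Embedding.nonempty_of_card_le hcard
        set ψ : Finset (Fin (j + 1)) → Finset (Fin (l + 1)) := fun D =>
          A.filter fun i => ∀ k, (f k : Fin (l + 1)) = i → k ∈ D with hψ
        have haff : AffMap ψ := by
          refine affMap_of_coord fun i => ?_
          by_cases hi : i ∈ A
          · by_cases hk : ∃ k, (f k : Fin (l + 1)) = i
            · obtain ⟨k, rfl⟩ := hk
              right; right; left
              refine ⟨k, fun D => ?_⟩
              simp only [hψ, Finset.mem_filter, hi, true_and]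
              constructor
              · exact fun h => h k rfl
              · intro h k' hk'
                have : k' = k := f.injective (Subtype.ext hk')
                rwa [this]
            · left
              intro D
              simp only [hψ, Finset.mem_filter, hi, true_and]
              exact fun k hk' => absurd ⟨k, hk'⟩ hk
          · right; left
            intro D
            simp [hψ, hi]
        have h1 := Cub_comp haff he
        have h2 : (fun D => e (ψ D)) = vcube x (g • x) := by
          funext D
          by_cases hD : D = Finset.univ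
          · subst hD
            have h3 : ψ Finset.univ = A := by
              simp [hψ]
            simp only [vcube, if_true, h3, hg]
          · have h3 : ψ D ⊂ A := by
              refine ⟨Finset.filter_subset _ _, fun h4 => hD ?_⟩
              rw [Finset.eq_univ_iff_forall]
              intro k
              have h5 := h4 (f k).2
              simp only [hψ, Finset.mem_filter] at h5
              exact h5.2 k rfl
            simp only [vcube, if_neg hD]
            exact hAmin _ h3
        rw [h2] at h1
        have h3 := hC.top g x h1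
        rw [h3, one_smul] at hg
        exact hAx hg

/-- straightening of a pair of cubes : the first one becomes constant -/
theorem straighten {ι : Type*} (hT : IsMin T) (hd : DistalU T) (hC : ∀ (c : C) (x : X), c • T x = T (c • x))
    {d d' : Finset ι → X} (hdm : d ∈ Cub T ι) (hdm' : d' ∈ Cub T ι) :
    ∃ (x : X) (e : Finset ι → X), e ∈ Cub T ι ∧ ∀ A, ∀ g : C, e A = g • x ↔ d' A = g • d A := by
  classical
  obtain ⟨p, hp⟩ := exists_cpact hT hd hdm (const_mem_Cub (T := T) (ι := ι) (d ∅))
  obtain ⟨q, hq⟩ := hd.exists_cinv p
  refine ⟨d ∅, cpact T p d', cpact_mem p hdm', fun A g => ?_⟩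
  have h1 : ∀ A, pact T (p.map (expoV A)) (g • d A) = g • d ∅ := by
    intro A
    have h2 := congrFun hp A
    simp only [cpact] at h2
    rw [← map_pact (φ := fun z : X => g • z) (continuous_const_smul g) (hC g), h2]
  constructor
  · intro h
    -- apply `q`
    have h3 : cpact T p (Function.update d' A (g • d A)) = cpact T p d' := by
      funext B
      by_cases hB : B = A
      · subst hB
        simp only [cpact, Function.update_self]
        rw [h1]
        exact h.symm
      · simp only [cpact, Function.update_of_ne hB]
    have h4 := congrArg (cpact T q) h3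
    rw [(hq _).1, (hq _).1] at h4
    have h5 := congrFun h4 A
    rw [Function.update_self] at h5
    exact h5.symm
  · intro h
    simp only [cpact]
    rw [h, h1]

variable [T2Space Y]

/-- E2: the quotient by a group of level `j ≤ l` has order at most `l`. -/
theorem IsQuot.uniqCub {π : X → Y} (hπ : IsQuot T S C π) (hT : IsMin T) {l j : ℕ} (_hjl : j ≤ l)
    (hl : UniqCub T l) (hC : LevelAct T C j) : UniqCub S l := by
  intro c hc c' hc' hcc
  obtain ⟨d, hdm, rfl⟩ := Cub_lift hπ.cont hπ.surj hπ.equi hc
  obtain ⟨d', hdm', rfl⟩ := Cub_lift hπ.cont hπ.surj hπ.equi hc'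
  obtain ⟨x, e, he, hiff⟩ := straighten (C := C) hT hl.distalU hC.comm hdm hdm'
  obtain ⟨g, hg⟩ := reduce_cube hT hl hC x _ e he (fun A hA => by
    obtain ⟨g, hg⟩ := hπ.fib _ _ (hcc A hA)
    exact ⟨g, (hiff A g).mpr hg⟩) rfl
  rw [hiff] at hg
  funext A
  by_cases hA : A = Finset.univ
  · subst hA
    show π (d Finset.univ) = π (d' Finset.univ)
    rw [hg, hπ.inv]
  · exact hcc A hA

/-- E2: the quotient by the whole structure group has order at most `s`. -/
theorem IsQuot.uniqCub_str {π : X → Y} (hπ : IsQuot T S C π) (hT : IsMin T) {s : ℕ}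
    (hs : UniqCub T (s + 1)) (hC : LevelAct T C (s + 1))
    (hall : ∀ x y : X, (vcube x y : Finset (Fin (s + 1)) → X) ∈ Cub T (Fin (s + 1)) →
      ∃ c : C, y = c • x) : UniqCub S s := by
  intro c hc c' hc' hcc
  obtain ⟨d, hdm, rfl⟩ := Cub_lift hπ.cont hπ.surj hπ.equi hc
  obtain ⟨d', hdm', rfl⟩ := Cub_lift hπ.cont hπ.surj hπ.equi hc'
  obtain ⟨x, e, he, hiff⟩ := straighten (C := C) hT hs.distalU hC.comm hdm hdm'
  have hex : ∀ A, A ≠ Finset.univ → ∃ g : C, e A = g • x := by
    intro A hA
    obtain ⟨g, hg⟩ := hπ.fib _ _ (hcc A hA)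
    exact ⟨g, (hiff A g).mpr hg⟩
  have key : ∀ V : Finset (Finset (Fin (s + 1))), Finset.univ ∉ V →
      (fun A => if A ∈ V then x else e A) ∈ Cub T (Fin (s + 1)) := by
    intro V
    induction V using Finset.induction_on with
    | empty => intro _; simpa using he
    | insert A V hA ih =>
      intro hu
      rw [Finset.mem_insert, not_or] at hu
      obtain ⟨g, hg⟩ := hex A (Ne.symm hu.1)
      have h1 := update_mem_of_comm (a := fun z : X => g⁻¹ • z) hT hs.distalU
        (continuous_const_smul _) (fun z => hC.comm _ _) (hC.lev g⁻¹ x) (by simp) A (ih hu.2)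
      have h2 : Function.update (fun B => if B ∈ V then x else e B) A
          (g⁻¹ • (if A ∈ V then x else e A)) = fun B => if B ∈ insert A V then x else e B := by
        funext B
        by_cases hB : B = A
        · subst hB
          simp [hA, hg]
        · simp [Finset.mem_insert, hB]
      rwa [h2] at h1
  have h1 := key (Finset.univ.erase Finset.univ) (by simp)
  have h2 : (fun A : Finset (Fin (s + 1)) =>
      if A ∈ (Finset.univ.erase Finset.univ : Finset (Finset (Fin (s + 1)))) then x else e A) =
      vcube x (e Finset.univ) := by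
    funext A
    by_cases hA : A = Finset.univ
    · subst hA
      simp [vcube]
    · simp [vcube, hA]
  rw [h2] at h1
  obtain ⟨g, hg⟩ := hall _ _ h1
  rw [hiff] at hg
  funext A
  by_cases hA : A = Finset.univ
  · subst hA
    show π (d Finset.univ) = π (d' Finset.univ)
    rw [hg, hπ.inv]
  · exact hcc A hA

end quot

end MP_e326dc_an
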