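import Pool.Agent.Lib.MP_e326dc_an.Cube.Sys
import Pool.Agent.Lib.MP_e326dc_an.Cube.NullApi

set_option autoImplicit false

/-!
# The algebras of sequences of order `s`
-/

open Filter Topology
open scoped ComplexConjugate

namespace MP_e326dc_an

attribute [local instance] Ultrafilter.add Ultrafilter.addSemigroup

theorem OrdSeq.joint {κ : Type} [Countable κ] {s : ℕ} {φ : κ → ℤ → ℂ} (h : ∀ k, OrdSeq s (φ k)) :
    ∃ (P : DSys) (_ : TopologicalSpace.MetrizableSpace P.X) (_ : P.Ord s) (z : P.X)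
      (F : κ → C(P.X, ℂ)), ∀ k (n : ℤ), φ k n = F k ((P.T ^ n) z) := by
  choose P hm ho z F hF using h
  obtain ⟨Q, hQ, w, π, hw, hmet⟩ := exists_joint P ho z
  refine ⟨Q, hmet hm, hQ, w, fun k => (F k).comp ⟨(π k).π, (π k).cont⟩, fun k n => ?_⟩
  have h1 := equi_zpow (π k).equi n w
  rw [hF k n, ← hw k]
  exact congrArg (F k) h1.symm

theorem OrdSeq.bdd {s : ℕ} {φ : ℤ → ℂ} (h : OrdSeq s φ) : Bdd φ := by
  obtain ⟨P, _, _, z, F, hF⟩ := h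
  refine ⟨‖F‖, fun n => ?_⟩
  rw [hF n]
  exact F.norm_coe_le_norm _

/-- the one point system -/
private def seqPt : DSys where
  X := Unit
  T := Homeomorph.refl Unit

private theorem seqPt_ord (s : ℕ) : seqPt.Ord s := by
  have hs : Subsingleton seqPt.X := inferInstanceAs (Subsingleton Unit)
  refine ⟨⟨(() : Unit)⟩, fun x y => subset_closure ⟨0, Subsingleton.elim _ _⟩, ?_⟩
  intro c _ c' _ _
  funext S
  exact Subsingleton.elim _ _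

theorem OrdSeq.const (s : ℕ) (c : ℂ) : OrdSeq s (fun _ => c) :=
  ⟨seqPt, inferInstanceAs (TopologicalSpace.MetrizableSpace Unit), seqPt_ord s, (() : Unit),
    ContinuousMap.const _ c, fun _ => rfl⟩

private theorem OrdSeq.comp1 {s : ℕ} {φ : ℤ → ℂ} (h : OrdSeq s φ) {f : ℂ → ℂ} (hf : Continuous f) :
    OrdSeq s (fun n => f (φ n)) := by
  obtain ⟨P, hm, ho, z, F, hF⟩ := h
  refine ⟨P, hm, ho, z, ⟨fun x => f (F x), hf.comp F.continuous⟩, fun n => ?_⟩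
  change f (φ n) = f (F ((P.T ^ n) z))
  rw [hF n]

private theorem OrdSeq.comp2 {s : ℕ} {φ ψ : ℤ → ℂ} (h : OrdSeq s φ) (h' : OrdSeq s ψ)
    {f : ℂ → ℂ → ℂ} (hf : Continuous fun p : ℂ × ℂ => f p.1 p.2) :
    OrdSeq s (fun n => f (φ n) (ψ n)) := by
  have hb : ∀ b : Bool, OrdSeq s ((fun b : Bool => if b = true then φ else ψ) b) := by
    intro b
    cases b
    · exact h'
    · exact h
  obtain ⟨P, hm, ho, z, F, hF⟩ := OrdSeq.joint hb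
  refine ⟨P, hm, ho, z, ⟨fun x => f (F true x) (F false x), ?_⟩, fun n => ?_⟩
  · exact hf.comp ((F true).continuous.prodMk (F false).continuous)
  · change f (φ n) (ψ n) = f (F true ((P.T ^ n) z)) (F false ((P.T ^ n) z))
    rw [← hF true n, ← hF false n]
    rfl

theorem OrdSeq.add {s : ℕ} {φ ψ : ℤ → ℂ} (h : OrdSeq s φ) (h' : OrdSeq s ψ) :
    OrdSeq s (fun n => φ n + ψ n) :=
  OrdSeq.comp2 h h' (f := fun a b => a + b) (by fun_prop)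

theorem OrdSeq.mul {s : ℕ} {φ ψ : ℤ → ℂ} (h : OrdSeq s φ) (h' : OrdSeq s ψ) :
    OrdSeq s (fun n => φ n * ψ n) :=
  OrdSeq.comp2 h h' (f := fun a b => a * b) (by fun_prop)

theorem OrdSeq.conj {s : ℕ} {φ : ℤ → ℂ} (h : OrdSeq s φ) : OrdSeq s (fun n => conj (φ n)) :=
  OrdSeq.comp1 h (f := fun a => (starRingEnd ℂ) a) Complex.continuous_conj

theorem OrdSeq.shift {s : ℕ} {φ : ℤ → ℂ} (h : OrdSeq s φ) (k : ℤ) :
    OrdSeq s (fun n => φ (n + k)) := by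
  obtain ⟨P, hm, ho, z, F, hF⟩ := h
  refine ⟨P, hm, ho, (P.T ^ k) z, F, fun n => ?_⟩
  change φ (n + k) = _
  rw [hF (n + k), zpow_add_apply]

theorem OrdSeq.mono {s s' : ℕ} (hs : s ≤ s') {φ : ℤ → ℂ} (h : OrdSeq s φ) : OrdSeq s' φ := by
  obtain ⟨P, hm, ho, z, F, hF⟩ := h
  exact ⟨P, hm, ⟨ho.ne, ho.min, ho.uniq.mono hs⟩, z, F, hF⟩

private theorem seq_lim {P : DSys} (F : ℕ → C(P.X, ℂ))
    (h : ∀ (k l : ℕ) (x : P.X), ‖F k x - F l x‖ ≤ 1 / ((k : ℝ) + 1) + 1 / ((l : ℝ) + 1)) :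
    ∃ G : C(P.X, ℂ), ∀ (k : ℕ) (x : P.X), ‖F k x - G x‖ ≤ 1 / ((k : ℝ) + 1) := by
  have hn : ∀ k l : ℕ, ‖F k - F l‖ ≤ 1 / ((k : ℝ) + 1) + 1 / ((l : ℝ) + 1) := by
    intro k l
    rw [ContinuousMap.norm_le _ (by positivity)]
    exact fun x => h k l x
  have hc : CauchySeq F := by
    rw [Metric.cauchySeq_iff']
    intro ε hε
    obtain ⟨N, hN⟩ := exists_nat_one_div_lt (half_pos hε)
    refine ⟨N, fun n hn' => ?_⟩
    rw [dist_eq_norm]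
    have h1 : 1 / ((n : ℝ) + 1) ≤ 1 / ((N : ℝ) + 1) := by
      apply one_div_le_one_div_of_le (by positivity)
      have : (N : ℝ) ≤ n := by exact_mod_cast hn'
      linarith
    linarith [hn n N]
  obtain ⟨G, hG⟩ := cauchySeq_tendsto_of_complete hc
  refine ⟨G, fun k x => ?_⟩
  have h1 : Tendsto (fun l : ℕ => ‖F k x - F l x‖) atTop (𝓝 ‖F k x - G x‖) := by
    have h2 : Tendsto (fun l : ℕ => F l x) atTop (𝓝 (G x)) :=
      ((continuous_eval_const (F := C(P.X, ℂ)) x).tendsto G).comp hG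
    exact (tendsto_const_nhds.sub h2).norm
  have h3 : Tendsto (fun l : ℕ => 1 / ((k : ℝ) + 1) + 1 / ((l : ℝ) + 1)) atTop
      (𝓝 (1 / ((k : ℝ) + 1) + 0)) := tendsto_const_nhds.add tendsto_one_div_add_atTop_nhds_zero_nat
  rw [add_zero] at h3
  exact le_of_tendsto_of_tendsto' h1 h3 fun l => h k l x

private theorem seq_dense {P : DSys} (hmin : IsMin P.T) (z : P.X) {G : P.X → ℂ}
    (hG : Continuous G) {C : ℝ} (h : ∀ n : ℤ, ‖G ((P.T ^ n) z)‖ ≤ C) (x : P.X) : ‖G x‖ ≤ C := by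
  have hcl : IsClosed {y : P.X | ‖G y‖ ≤ C} := isClosed_le hG.norm continuous_const
  have hsub : closure (Set.range fun n : ℤ => (P.T ^ n) z) ⊆ {y : P.X | ‖G y‖ ≤ C} := by
    rw [hcl.closure_subset_iff]
    rintro _ ⟨n, rfl⟩
    exact h n
  exact hsub (hmin z x)

private theorem seq_eq_of_forall {a b : ℂ} (h : ∀ k : ℕ, ‖a - b‖ ≤ 2 * (1 / ((k : ℝ) + 1))) :
    a = b := by
  have h1 : Tendsto (fun k : ℕ => 2 * (1 / ((k : ℝ) + 1))) atTop (𝓝 (2 * 0)) :=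
    tendsto_one_div_add_atTop_nhds_zero_nat.const_mul 2
  rw [mul_zero] at h1
  have h2 : ‖a - b‖ ≤ 0 := ge_of_tendsto' h1 h
  exact sub_eq_zero.1 (norm_le_zero_iff.1 h2)

theorem OrdSeq.closed {s : ℕ} {φ : ℤ → ℂ}
    (h : ∀ ε : ℝ, 0 < ε → ∃ ψ, OrdSeq s ψ ∧ ∀ n, ‖φ n - ψ n‖ ≤ ε) : OrdSeq s φ := by
  choose ψ hψ happ using fun k : ℕ => h (1 / ((k : ℝ) + 1)) (by positivity)
  obtain ⟨P, hm, ho, z, F, hF⟩ := OrdSeq.joint hψ
  have h1 : ∀ (k l : ℕ) (x : P.X), ‖F k x - F l x‖ ≤ 1 / ((k : ℝ) + 1) + 1 / ((l : ℝ) + 1) := by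
    intro k l x
    refine seq_dense ho.min z (G := fun x => F k x - F l x)
      ((F k).continuous.sub (F l).continuous) (fun n => ?_) x
    rw [← hF k n, ← hF l n]
    calc ‖ψ k n - ψ l n‖ = ‖(φ n - ψ l n) - (φ n - ψ k n)‖ := by congr 1; ring
      _ ≤ ‖φ n - ψ l n‖ + ‖φ n - ψ k n‖ := norm_sub_le _ _
      _ ≤ _ := by linarith [happ k n, happ l n]
  obtain ⟨G, hG⟩ := seq_lim F h1
  refine ⟨P, hm, ho, z, G, fun n => seq_eq_of_forall fun k => ?_⟩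
  calc ‖φ n - G ((P.T ^ n) z)‖ = ‖(φ n - ψ k n) + (F k ((P.T ^ n) z) - G ((P.T ^ n) z))‖ := by
        rw [← hF k n]; congr 1; ring
    _ ≤ ‖φ n - ψ k n‖ + ‖F k ((P.T ^ n) z) - G ((P.T ^ n) z)‖ := norm_add_le _ _
    _ ≤ _ := by linarith [happ k n, hG k ((P.T ^ n) z)]

/-- a null perturbation cannot diminish the supremum norm of a continuous function on a minimal
system -/
theorem norm_le_of_null {X : Type*} [TopologicalSpace X] [CompactSpace X] [T2Space X] {T : X ≃ₜ X}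
    (hT : IsMin T) {E : Type*} [SeminormedAddCommGroup E] {F : X → E} (hF : Continuous F) {z : X}
    {ν : ℤ → E} (hν : Null ν) {ε : ℝ} (h : ∀ n : ℤ, ‖F ((T ^ n) z) + ν n‖ ≤ ε) (x : X) :
    ‖F x‖ ≤ ε := by
  by_contra hcon
  push Not at hcon
  obtain ⟨δ, hδ, hδx⟩ : ∃ δ : ℝ, 0 < δ ∧ ε + δ < ‖F x‖ :=
    ⟨(‖F x‖ - ε) / 2, by linarith, by linarith⟩
  have hU : IsOpen {y : X | ε + δ < ‖F y‖} := isOpen_lt continuous_const hF.norm
  have hcov : ∀ y : X, ∃ n : ℤ, (T ^ n) y ∈ {y : X | ε + δ < ‖F y‖} := by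
    intro y
    obtain ⟨_, hw, ⟨n, rfl⟩⟩ := (hT y).inter_open_nonempty _ hU ⟨x, hδx⟩
    exact ⟨n, hw⟩
  obtain ⟨K, hK⟩ : ∃ K : Finset ℤ, ∀ y : X, ∃ k ∈ K, (T ^ k) y ∈ {y : X | ε + δ < ‖F y‖} := by
    have hopen : ∀ n : ℤ, IsOpen ((fun y => (T ^ n) y) ⁻¹' {y : X | ε + δ < ‖F y‖}) :=
      fun n => hU.preimage (continuous_zpow T n)
    obtain ⟨K, hK⟩ := isCompact_univ.elim_finite_subcover _ hopen (by
      intro y _
      obtain ⟨n, hn⟩ := hcov y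
      exact Set.mem_iUnion.2 ⟨n, hn⟩)
    refine ⟨K, fun y => ?_⟩
    have hy := hK (Set.mem_univ y)
    simp only [Set.mem_iUnion] at hy
    obtain ⟨k, hk, hk'⟩ := hy
    exact ⟨k, hk, hk'⟩
  refine not_nullSet_of_syndetic (A := {n | δ ≤ ‖ν n‖}) K (fun n => ?_) (hν.nullSet hδ)
  obtain ⟨k, hk, hk'⟩ := hK ((T ^ n) z)
  refine ⟨k, hk, ?_⟩
  have e1 : (T ^ k) ((T ^ n) z) = (T ^ (n + k)) z := by rw [add_comm, zpow_add_apply]
  rw [e1] at hk'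
  have h2 : ε + δ < ‖F ((T ^ (n + k)) z)‖ := hk'
  have h3 : ‖F ((T ^ (n + k)) z)‖ ≤ ‖F ((T ^ (n + k)) z) + ν (n + k)‖ + ‖ν (n + k)‖ := by
    have := norm_sub_le (F ((T ^ (n + k)) z) + ν (n + k)) (ν (n + k))
    rwa [add_sub_cancel_right] at this
  change δ ≤ ‖ν (n + k)‖
  linarith [h (n + k)]

theorem OrdNull.bdd {s : ℕ} {φ : ℤ → ℂ} (h : OrdNull s φ) : Bdd φ := h.1

theorem OrdNull.of_null (s : ℕ) {φ : ℤ → ℂ} (hb : Bdd φ) (h : Null φ) : OrdNull s φ := by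
  refine ⟨hb, fun _ => 0, OrdSeq.const s 0, ?_⟩
  simpa using h

theorem OrdNull.of_ordSeq {s : ℕ} {φ : ℤ → ℂ} (h : OrdSeq s φ) : OrdNull s φ := by
  refine ⟨h.bdd, φ, h, ?_⟩
  have := Null.zero (E := ℂ)
  simpa using this

theorem OrdNull.const (s : ℕ) (c : ℂ) : OrdNull s (fun _ => c) :=
  OrdNull.of_ordSeq (OrdSeq.const s c)

theorem OrdNull.add {s : ℕ} {φ ψ : ℤ → ℂ} (h : OrdNull s φ) (h' : OrdNull s ψ) :
    OrdNull s (fun n => φ n + ψ n) := by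
  obtain ⟨⟨C, hC⟩, a, ha, hn⟩ := h
  obtain ⟨⟨C', hC'⟩, a', ha', hn'⟩ := h'
  refine ⟨⟨C + C', fun n => (norm_add_le _ _).trans (add_le_add (hC n) (hC' n))⟩,
    fun n => a n + a' n, ha.add ha', ?_⟩
  have h1 := hn.add hn'
  have e : (fun n => φ n - a n + (ψ n - a' n)) = fun n => φ n + ψ n - (a n + a' n) := by
    funext n
    ring
  rwa [e] at h1

theorem OrdNull.mul {s : ℕ} {φ ψ : ℤ → ℂ} (h : OrdNull s φ) (h' : OrdNull s ψ) :
    OrdNull s (fun n => φ n * ψ n) := by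
  obtain ⟨⟨C, hC⟩, a, ha, hn⟩ := h
  obtain ⟨⟨C', hC'⟩, a', ha', hn'⟩ := h'
  refine ⟨⟨C * C', fun n => ?_⟩, fun n => a n * a' n, ha.mul ha', ?_⟩
  · rw [norm_mul]
    exact mul_le_mul (hC n) (hC' n) (norm_nonneg _) ((norm_nonneg _).trans (hC n))
  · have h1 := (Null.bdd_mul (f := φ) ⟨C, hC⟩ hn').add (Null.bdd_mul ha'.bdd hn)
    have e : (fun n => φ n * (ψ n - a' n) + a' n * (φ n - a n)) =
        fun n => φ n * ψ n - a n * a' n := by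
      funext n
      ring
    rwa [e] at h1

theorem OrdNull.conj {s : ℕ} {φ : ℤ → ℂ} (h : OrdNull s φ) : OrdNull s (fun n => conj (φ n)) := by
  obtain ⟨⟨C, hC⟩, a, ha, hn⟩ := h
  refine ⟨⟨C, fun n => ?_⟩, fun n => (starRingEnd ℂ) (a n), ha.conj, ?_⟩
  · rw [RCLike.norm_conj]
    exact hC n
  · refine hn.mono 1 fun n => ?_
    rw [← map_sub, RCLike.norm_conj, one_mul]

theorem OrdNull.shift {s : ℕ} {φ : ℤ → ℂ} (h : OrdNull s φ) (k : ℤ) :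
    OrdNull s (fun n => φ (n + k)) := by
  obtain ⟨⟨C, hC⟩, a, ha, hn⟩ := h
  exact ⟨⟨C, fun n => hC (n + k)⟩, fun n => a (n + k), ha.shift k, hn.shift k⟩

theorem OrdNull.mono {s s' : ℕ} (hs : s ≤ s') {φ : ℤ → ℂ} (h : OrdNull s φ) : OrdNull s' φ := by
  obtain ⟨hb, a, ha, hn⟩ := h
  exact ⟨hb, a, ha.mono hs, hn⟩

theorem OrdNull.closed {s : ℕ} {φ : ℤ → ℂ}
    (h : ∀ ε : ℝ, 0 < ε → ∃ ψ, OrdNull s ψ ∧ ∀ n, ‖φ n - ψ n‖ ≤ ε) : OrdNull s φ := by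
  have hb : Bdd φ := by
    obtain ⟨χ, hχ, happ⟩ := h 1 one_pos
    obtain ⟨C, hC⟩ := hχ.bdd
    refine ⟨1 + C, fun n => ?_⟩
    calc ‖φ n‖ = ‖(φ n - χ n) + χ n‖ := by rw [sub_add_cancel]
      _ ≤ ‖φ n - χ n‖ + ‖χ n‖ := norm_add_le _ _
      _ ≤ 1 + C := add_le_add (happ n) (hC n)
  choose χ hχ happ using fun k : ℕ => h (1 / ((k : ℝ) + 1)) (by positivity)
  choose hχb ψ hψ hν using hχ
  obtain ⟨P, hm, ho, z, F, hF⟩ := OrdSeq.joint hψ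
  have h1 : ∀ (k l : ℕ) (x : P.X), ‖F k x - F l x‖ ≤ 1 / ((k : ℝ) + 1) + 1 / ((l : ℝ) + 1) := by
    intro k l x
    refine norm_le_of_null (T := P.T) ho.min (F := fun x => F k x - F l x)
      ((F k).continuous.sub (F l).continuous) (z := z) ((hν k).sub (hν l)) (fun n => ?_) x
    rw [← hF k n, ← hF l n]
    calc ‖ψ k n - ψ l n + (χ k n - ψ k n - (χ l n - ψ l n))‖
        = ‖(φ n - χ l n) - (φ n - χ k n)‖ := by congr 1; ring
      _ ≤ ‖φ n - χ l n‖ + ‖φ n - χ k n‖ := norm_sub_le _ _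
      _ ≤ _ := by linarith [happ k n, happ l n]
  obtain ⟨G, hG⟩ := seq_lim F h1
  refine ⟨hb, fun n => G ((P.T ^ n) z), ⟨P, hm, ho, z, G, fun _ => rfl⟩,
    Null.of_forall_approx fun ε hε => ?_⟩
  obtain ⟨k, hk⟩ := exists_nat_one_div_lt (half_pos hε)
  refine ⟨fun n => χ k n - ψ k n, hν k, fun n => ?_⟩
  calc ‖φ n - G ((P.T ^ n) z) - (χ k n - ψ k n)‖
      = ‖(φ n - χ k n) + (F k ((P.T ^ n) z) - G ((P.T ^ n) z))‖ := by
        rw [← hF k n]; congr 1; ring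
    _ ≤ ‖φ n - χ k n‖ + ‖F k ((P.T ^ n) z) - G ((P.T ^ n) z)‖ := norm_add_le _ _
    _ ≤ ε := by linarith [happ k n, hG k ((P.T ^ n) z)]

/-- joint form for `OrdNull`: one system for countably many sequences -/
theorem OrdNull.joint {κ : Type} [Countable κ] {s : ℕ} {φ : κ → ℤ → ℂ}
    (h : ∀ k, OrdNull s (φ k)) :
    ∃ (P : DSys) (_ : TopologicalSpace.MetrizableSpace P.X) (_ : P.Ord s) (z : P.X)
      (F : κ → C(P.X, ℂ)), ∀ k, Null (fun n : ℤ => φ k n - F k ((P.T ^ n) z)) := by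
  choose hb ψ hψ hν using h
  obtain ⟨P, hm, ho, z, F, hF⟩ := OrdSeq.joint hψ
  refine ⟨P, hm, ho, z, F, fun k => ?_⟩
  have e : (fun n : ℤ => φ k n - F k ((P.T ^ n) z)) = fun n => φ k n - ψ k n := by
    funext n
    rw [← hF k n]
  rw [e]
  exact hν k

end MP_e326dc_an
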