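import Pool.Agent.Lib.MP_e326dc_an.Cube.StrDefs

set_option autoImplicit false

/-!
# The structure group, first part (E1)
-/

open Filter Topology

namespace MP_e326dc_an

attribute [local instance] Ultrafilter.add Ultrafilter.addSemigroup

section str
variable {X : Type*} [TopologicalSpace X] {T : X ≃ₜ X}
variable {ι : Type*} [Fintype ι] [DecidableEq ι]

/-- maps commuting with `T` which agree at one point are equal -/
theorem eq_of_comm [T2Space X] (hT : IsMin T) {a b : X → X} (ha : Continuous a)
    (hb : Continuous b) (haT : ∀ x, a (T x) = T (a x)) (hbT : ∀ x, b (T x) = T (b x)) {x : X}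
    (h : a x = b x) : a = b := by
  have hcl : IsClosed {z | a z = b z} := isClosed_eq ha hb
  have hsub : Set.range (fun n : ℤ => (T ^ n) x) ⊆ {z | a z = b z} := by
    rintro _ ⟨n, rfl⟩
    show a ((T ^ n) x) = b ((T ^ n) x)
    rw [equi_zpow haT, equi_zpow hbT, h]
  have h2 := (hT x).closure_eq
  funext z
  have h3 : z ∈ closure (Set.range fun n : ℤ => (T ^ n) x) := by rw [h2]; trivial
  exact closure_minimal hsub hcl h3

/-- the cube `(x,…,x,a x)` on the face above `A` is obtained from `vcube` -/
theorem faceAct_const_mem {s : ℕ} {a : X → X} {x : X}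
    (hx : (vcube x (a x) : Finset (Fin s) → X) ∈ Cub T (Fin s)) (A : Finset ι) (hA : A.card ≤ s) :
    faceAct a A (fun _ => x) ∈ Cub T ι := by
  rcases A.eq_empty_or_nonempty with rfl | hne
  · have : faceAct a (∅ : Finset ι) (fun _ => x) = fun _ => a x := by
      funext B
      simp [faceAct]
    rw [this]
    exact const_mem_Cub _
  · have hcard : Fintype.card A ≤ Fintype.card (Fin s) := by simpa using hA
    have : Nonempty A := hne.to_subtype
    obtain ⟨f, hf⟩ : ∃ f : Fin s → A, Function.Surjective f := by
      obtain ⟨e⟩ := Function.Embedding.nonempty_of_card_le hcard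
      exact ⟨Function.invFun e, Function.invFun_surjective e.injective⟩
    set ψ : Finset ι → Finset (Fin s) := fun B => Finset.univ.filter fun j => (f j : ι) ∈ B with hψ
    have haff : AffMap ψ := by
      refine affMap_of_coord fun j => ?_
      right; right; left
      exact ⟨f j, fun B => by simp [hψ]⟩
    have h1 := Cub_comp haff hx
    have h2 : (fun B => (vcube x (a x) : Finset (Fin s) → X) (ψ B)) =
        faceAct a A (fun _ => x) := by
      funext B
      have h3 : ψ B = Finset.univ ↔ A ⊆ B := by
        constructor
        · intro h i hi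
          obtain ⟨j, hj⟩ := hf ⟨i, hi⟩
          have : j ∈ ψ B := by rw [h]; exact Finset.mem_univ j
          simpa [hψ, hj] using this
        · intro h
          rw [Finset.eq_univ_iff_forall]
          intro j
          simpa [hψ] using h (f j).2
      simp only [vcube, faceAct, h3]
    rwa [h2] at h1

variable [CompactSpace X] [T2Space X]

/-- The maps commuting with `T` with `(x,…,x,a x)` a cube of dimension `s` act on the faces of
codimension at most `s`. -/
theorem faceAct_mem_of_comm (hT : IsMin T) (hd : DistalU T) {s : ℕ} {a : X → X}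
    (ha : Continuous a) (haT : ∀ x, a (T x) = T (a x)) {x : X}
    (hx : (vcube x (a x) : Finset (Fin s) → X) ∈ Cub T (Fin s)) (A : Finset ι) (hA : A.card ≤ s)
    {c : Finset ι → X} (hc : c ∈ Cub T ι) : faceAct a A c ∈ Cub T ι := by
  have h1 := coord_mem hT hd (g := fun B => if A ⊆ B then a else id)
    (fun B => by by_cases h : A ⊆ B <;> simp [h, ha, continuous_id])
    (fun B z => by by_cases h : A ⊆ B <;> simp [h, haT])
    (const_mem_Cub (T := T) (ι := ι) x) (by
      have h2 := faceAct_const_mem (ι := ι) hx A hA
      have h3 : (fun B => (if A ⊆ B then a else id) x) = faceAct a A (fun _ => x) := by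
        funext B
        by_cases h : A ⊆ B <;> simp [faceAct, h]
      rw [← h3] at h2
      exact h2) hc
  have h2 : (fun B => (if A ⊆ B then a else id) (c B)) = faceAct a A c := by
    funext B
    by_cases h : A ⊆ B <;> simp [faceAct, h]
  rwa [h2] at h1

/-- in dimension at most `s` it acts on single vertices -/
theorem update_mem_of_comm (hT : IsMin T) (hd : DistalU T) {s : ℕ} {a : X → X}
    (ha : Continuous a) (haT : ∀ x, a (T x) = T (a x)) {x : X}
    (hx : (vcube x (a x) : Finset (Fin s) → X) ∈ Cub T (Fin s)) (hι : Fintype.card ι ≤ s)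
    (A₀ : Finset ι) {c : Finset ι → X} (hc : c ∈ Cub T ι) :
    Function.update c A₀ (a (c A₀)) ∈ Cub T ι := by
  have haff : AffMap fun B : Finset ι => symmDiff B A₀ᶜ := by
    refine affMap_of_coord fun i => ?_
    by_cases hi : i ∈ A₀
    · right; right; left
      exact ⟨i, fun B => by simp [Finset.mem_symmDiff, hi]⟩
    · right; right; right
      exact ⟨i, fun B => by simp [Finset.mem_symmDiff, hi]⟩
  have h1 := Cub_comp haff hc
  have h2 := faceAct_mem_of_comm hT hd ha haT hx (Finset.univ : Finset ι)
    (by simpa using hι) h1
  have h3 := Cub_comp haff h2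
  have h4 : (fun B => faceAct a Finset.univ (fun B => c (symmDiff B A₀ᶜ)) (symmDiff B A₀ᶜ)) =
      Function.update c A₀ (a (c A₀)) := by
    funext B
    have h5 : symmDiff (symmDiff B A₀ᶜ) A₀ᶜ = B := symmDiff_symmDiff_cancel_right _ _
    by_cases hB : B = A₀
    · subst hB
      have h7 : symmDiff B Bᶜ = Finset.univ := by
        ext i
        by_cases hi : i ∈ B <;> simp [Finset.mem_symmDiff, hi]
      have h8 : symmDiff Finset.univ Bᶜ = B := by
        rw [← h7]; exact h5
      simp only [faceAct, h7, h8, Function.update_self, Finset.subset_univ, if_true]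
    · have h6 : ¬ Finset.univ ⊆ symmDiff B A₀ᶜ := by
        intro h
        rw [Finset.univ_subset_iff] at h
        apply hB
        have := congrArg (fun Z => symmDiff Z A₀ᶜ) h
        simp only [h5] at this
        rw [this]
        ext i
        simp [Finset.mem_symmDiff]
      simp only [faceAct, h5, if_neg h6, Function.update_of_ne hB]
  rwa [h4] at h3

/-- symmetry of the relation `(x,…,x,y) ∈ Cub` -/
theorem vcube_symm_of_comm (hT : IsMin T) (hd : DistalU T) {s : ℕ} {a : X → X}
    (ha : Continuous a) (haT : ∀ x, a (T x) = T (a x)) {x : X}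
    (hx : (vcube x (a x) : Finset (Fin s) → X) ∈ Cub T (Fin s)) (z : X) :
    (vcube (a z) z : Finset (Fin s) → X) ∈ Cub T (Fin s) := by
  have key : ∀ V : Finset (Finset (Fin s)),
      (fun A => if A ∈ V then a z else z) ∈ Cub T (Fin s) := by
    intro V
    induction V using Finset.induction_on with
    | empty => simpa using const_mem_Cub (T := T) (ι := Fin s) z
    | insert A V hA ih =>
      have h1 := update_mem_of_comm hT hd ha haT hx (by simp) A ih
      have h2 : Function.update (fun B => if B ∈ V then a z else z) A
          (a (if A ∈ V then a z else z)) = fun B => if B ∈ insert A V then a z else z := by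
        funext B
        by_cases hB : B = A
        · subst hB
          simp [hA]
        · simp [Finset.mem_insert, hB]
      rwa [h2] at h1
  have h := key (Finset.univ.erase Finset.univ)
  have h2 : (fun A : Finset (Fin s) => if A ∈ (Finset.univ.erase Finset.univ : Finset (Finset (Fin s)))
      then a z else z) = vcube (a z) z := by
    funext A
    by_cases hA : A = Finset.univ <;> simp [vcube, hA]
  rwa [h2] at h

/-- a function whose graph is described by cubes is continuous -/
theorem exists_str_fun (hT : IsMin T) {s : ℕ} (hs : UniqCub T s) {x y : X}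
    (h : (vcube x y : Finset (Fin s) → X) ∈ Cub T (Fin s)) :
    ∃ a : X → X, Continuous a ∧ (∀ z, a (T z) = T (a z)) ∧ a x = y ∧
      ∀ z, (vcube z (a z) : Finset (Fin s) → X) ∈ Cub T (Fin s) := by
  set R : X → X → Prop := fun z w =>
    pairCube (vcube x y : Finset (Fin s) → X) (vcube z w) ∈ Cub T (Option (Fin s)) with hR
  have hfacet : ∀ p : Ultrafilter ℤ, ∀ z w, R z w → R (pact T p z) (pact T p w) := by
    intro p z w hzw
    have h1 := pact_facet_mem p (none : Option (Fin s)) hzw
    have h2 : faceAct (pact T p) {none} (pairCube (vcube x y : Finset (Fin s) → X) (vcube z w)) =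
        pairCube (vcube x y : Finset (Fin s) → X) (vcube (pact T p z) (pact T p w)) := by
      funext A
      by_cases hA : none ∈ A
      · by_cases hu : A.eraseNone = Finset.univ <;>
          simp [faceAct, pairCube, vcube, hA, hu]
      · simp [faceAct, pairCube, hA]
    rwa [h2] at h1
  have hex : ∀ z, ∃ w, R z w := by
    intro z
    obtain ⟨p, rfl⟩ := hT.exists_pact x z
    exact ⟨pact T p y, hfacet p x y (pairCube_diag h)⟩
  have huniq : ∀ z w w', R z w → R z w' → w = w' := by
    intro z w w' h1 h2
    have h3 := hs.ext (by simp) h1 h2 (Finset.univ : Finset (Option (Fin s))) (fun A hA => by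
      by_cases hn : none ∈ A
      · rw [pairCube_of_mem hn, pairCube_of_mem hn]
        have : A.eraseNone ≠ Finset.univ := by
          intro h4
          apply hA
          rw [Finset.eq_univ_iff_forall]
          intro o
          cases o with
          | none => exact hn
          | some i =>
            have : i ∈ A.eraseNone := by rw [h4]; exact Finset.mem_univ i
            simpa using this
        simp [vcube, this]
      · rw [pairCube_of_notMem hn, pairCube_of_notMem hn])
    have h4 := congrFun h3 Finset.univ
    rw [pairCube_of_mem (Finset.mem_univ _), pairCube_of_mem (Finset.mem_univ _)] at h4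
    have h5 : (Finset.univ : Finset (Option (Fin s))).eraseNone = Finset.univ := by
      ext i; simp
    rw [h5] at h4
    simpa [vcube] using h4
  choose a ha using hex
  have hgraph : IsClosed {q : X × X | R q.1 q.2} := by
    have hcont : Continuous fun q : X × X =>
        pairCube (vcube x y : Finset (Fin s) → X) (vcube q.1 q.2) := by
      refine continuous_pi fun A => ?_
      by_cases hA : none ∈ A
      · by_cases hu : A.eraseNone = Finset.univ
        · simp only [pairCube, hA, if_true, vcube, hu]; exact continuous_snd
        · simp only [pairCube, hA, if_true, vcube, hu, if_false]; exact continuous_fst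
      · simp only [pairCube, hA, if_false]; exact continuous_const
    exact isClosed_Cub.preimage hcont
  have hcont : Continuous a := by
    rw [continuous_iff_isClosed]
    intro K hK
    have h1 : a ⁻¹' K = Prod.fst '' ({q : X × X | R q.1 q.2} ∩ Prod.snd ⁻¹' K) := by
      ext z
      constructor
      · intro hz
        exact ⟨(z, a z), ⟨ha z, hz⟩, rfl⟩
      · rintro ⟨⟨z', w⟩, ⟨h2, h3⟩, rfl⟩
        have : w = a z' := huniq _ _ _ h2 (ha z')
        subst this
        exact h3
    rw [h1]
    exact ((hgraph.inter (hK.preimage continuous_snd)).isCompact.image continuous_fst).isClosed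
  refine ⟨a, hcont, fun z => ?_, ?_, fun z => Cub_upper (ha z)⟩
  · have h1 := hfacet (pure 1) _ _ (ha z)
    rw [pact_pure, pact_pure, zpow_one] at h1
    exact huniq _ _ _ (ha _) h1
  · exact huniq _ _ _ (ha x) (pairCube_diag h)

/-- E1, existence -/
theorem exists_str (hT : IsMin T) {s : ℕ} (hs : UniqCub T s) {x y : X}
    (h : (vcube x y : Finset (Fin s) → X) ∈ Cub T (Fin s)) :
    ∃ a : X ≃ₜ X, IsStr T s a ∧ a x = y := by
  have hd := hs.distalU
  obtain ⟨a, ha, haT, hax, hac⟩ := exists_str_fun hT hs h
  have h' : (vcube y x : Finset (Fin s) → X) ∈ Cub T (Fin s) := by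
    have := vcube_symm_of_comm hT hd ha haT (hac x) x
    rwa [hax] at this
  obtain ⟨b, hb, hbT, hby, hbc⟩ := exists_str_fun hT hs h'
  have h1 : (fun z => b (a z)) = id :=
    eq_of_comm hT (hb.comp ha) continuous_id (fun z => by rw [haT, hbT]) (fun _ => rfl) (x := x)
      (by rw [hax, hby]; rfl)
  have h2 : (fun z => a (b z)) = id :=
    eq_of_comm hT (ha.comp hb) continuous_id (fun z => by rw [hbT, haT]) (fun _ => rfl) (x := y)
      (by rw [hby, hax]; rfl)
  refine ⟨{ toFun := a, invFun := b, left_inv := fun z => congrFun h1 z,
            right_inv := fun z => congrFun h2 z, continuous_toFun := ha,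
            continuous_invFun := hb }, ⟨haT, hac⟩, hax⟩

theorem IsStr.faceAct_mem (hT : IsMin T) {s : ℕ} (hs : UniqCub T s) {a : X ≃ₜ X}
    (ha : IsStr T s a) (A : Finset ι) (hA : A.card ≤ s) {c : Finset ι → X} (hc : c ∈ Cub T ι) :
    faceAct a A c ∈ Cub T ι :=
  faceAct_mem_of_comm hT hs.distalU a.continuous ha.1 (ha.2 (c ∅)) A hA hc

end str

end MP_e326dc_an
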