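import Pool.Agent.Lib.MP_e326dc_an.Cube.Str1

set_option autoImplicit false

/-!
# The structure group, second part (E1)
-/

open Filter Topology

namespace MP_e326dc_an

attribute [local instance] Ultrafilter.add Ultrafilter.addSemigroup

section str
variable {X : Type*} [TopologicalSpace X] {T : X ≃ₜ X}

theorem IsStr.one {s : ℕ} : IsStr T s (1 : X ≃ₜ X) := by
  refine ⟨fun x => rfl, fun x => ?_⟩
  have h : (vcube x ((1 : X ≃ₜ X) x) : Finset (Fin s) → X) = fun _ => x := by
    funext A
    by_cases hA : A = Finset.univ <;> simp [vcube, hA]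
  rw [h]
  exact const_mem_Cub x

theorem IsStr.eq_of_eq [T2Space X] (hT : IsMin T) {s : ℕ} {a b : X ≃ₜ X} (ha : IsStr T s a)
    (hb : IsStr T s b) {x : X} (h : a x = b x) : a = b := by
  have h1 := eq_of_comm hT a.continuous b.continuous ha.1 hb.1 h
  exact Homeomorph.ext fun z => congrFun h1 z

variable [CompactSpace X] [T2Space X]

theorem IsStr.mul (hT : IsMin T) {s : ℕ} (hs : UniqCub T s) {a b : X ≃ₜ X} (ha : IsStr T s a)
    (hb : IsStr T s b) : IsStr T s (a * b) := by
  refine ⟨fun x => ?_, fun x => ?_⟩
  · show a (b (T x)) = T (a (b x))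
    rw [hb.1, ha.1]
  · have h1 := IsStr.faceAct_mem hT hs ha (Finset.univ : Finset (Fin s)) (by simp) (hb.2 x)
    have h2 : faceAct a Finset.univ (vcube x (b x) : Finset (Fin s) → X) =
        vcube x ((a * b) x) := by
      funext A
      by_cases hA : A = Finset.univ
      · subst hA
        simp only [faceAct, vcube, Finset.subset_univ, if_true]; rfl
      · have : ¬ Finset.univ ⊆ A := fun h => hA (Finset.univ_subset_iff.mp h)
        simp only [faceAct, vcube, if_neg hA, if_neg this]
    rwa [h2] at h1

theorem IsStr.inv (hT : IsMin T) {s : ℕ} (hs : UniqCub T s) {a : X ≃ₜ X} (ha : IsStr T s a) :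
    IsStr T s a⁻¹ := by
  refine ⟨fun x => ?_, fun x => ?_⟩
  · have h1 := ha.1 (a⁻¹ x)
    have h2 : a (a⁻¹ x) = x := a.apply_symm_apply x
    rw [h2] at h1
    rw [← h1]
    exact a.symm_apply_apply _
  · have h1 := vcube_symm_of_comm hT hs.distalU a.continuous ha.1 (ha.2 x) (a⁻¹ x)
    have h2 : a (a⁻¹ x) = x := a.apply_symm_apply x
    rwa [h2] at h1

theorem IsStr.comm (hT : IsMin T) {s : ℕ} (h1 : 1 ≤ s) (hs : UniqCub T s) {a b : X ≃ₜ X}
    (ha : IsStr T s a) (hb : IsStr T s b) : a * b = b * a := by
  refine Homeomorph.ext fun x => ?_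
  show a (b x) = b (a x)
  set A : Finset (Fin (s + 1)) := Finset.univ.erase 0 with hA
  set B : Finset (Fin (s + 1)) := Finset.univ.erase (Fin.last s) with hB
  have hAc : A.card ≤ s := by simp [hA]
  have hBc : B.card ≤ s := by simp [hB]
  have h0 : (0 : Fin (s + 1)) ≠ Fin.last s := by
    intro h
    have := congrArg Fin.val h
    simp at this
    omega
  have hAB : ∀ D : Finset (Fin (s + 1)), A ⊆ D → B ⊆ D → D = Finset.univ := by
    intro D h2 h3
    rw [Finset.eq_univ_iff_forall]
    intro i
    by_cases hi : i = 0
    · subst hi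
      exact h3 (by rw [hB, Finset.mem_erase]; exact ⟨h0, Finset.mem_univ _⟩)
    · exact h2 (by rw [hA, Finset.mem_erase]; exact ⟨hi, Finset.mem_univ _⟩)
  have hc := const_mem_Cub (T := T) (ι := Fin (s + 1)) x
  have h2 := ha.faceAct_mem hT hs A hAc (hb.faceAct_mem hT hs B hBc hc)
  have h3 := hb.faceAct_mem hT hs B hBc (ha.faceAct_mem hT hs A hAc hc)
  have h4 := hs _ h2 _ h3 (fun D hD => by
    by_cases hAD : A ⊆ D <;> by_cases hBD : B ⊆ D
    · exact absurd (hAB D hAD hBD) hD
    · simp [faceAct, hAD, hBD]
    · simp [faceAct, hAD, hBD]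
    · simp [faceAct, hAD, hBD])
  have h5 := congrFun h4 Finset.univ
  simpa [faceAct] using h5

/-- the relation describing the graph of the action -/
theorem IsStr.pair_mem (hT : IsMin T) {s : ℕ} {a : X ≃ₜ X} (ha : IsStr T s a) (x z : X) :
    pairCube (vcube x (a x) : Finset (Fin s) → X) (vcube z (a z)) ∈ Cub T (Option (Fin s)) := by
  obtain ⟨p, rfl⟩ := hT.exists_pact x z
  have h1 := pact_facet_mem p (none : Option (Fin s)) (pairCube_diag (ha.2 x))
  have h2 : faceAct (pact T p) {none}
      (pairCube (vcube x (a x) : Finset (Fin s) → X) (vcube x (a x))) =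
      pairCube (vcube x (a x) : Finset (Fin s) → X) (vcube (pact T p x) (a (pact T p x))) := by
    have h3 : a (pact T p x) = pact T p (a x) := map_pact a.continuous ha.1 p x
    funext A
    by_cases hA : none ∈ A
    · by_cases hu : A.eraseNone = Finset.univ <;>
        simp [faceAct, pairCube, vcube, hA, hu, h3]
    · simp [faceAct, pairCube, hA]
  rwa [h2] at h1

theorem pair_unique {s : ℕ} (hs : UniqCub T s) {c : Finset (Fin s) → X} {z w w' : X}
    (h1 : pairCube c (vcube z w) ∈ Cub T (Option (Fin s)))
    (h2 : pairCube c (vcube z w') ∈ Cub T (Option (Fin s))) : w = w' := by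
  have h3 := hs.ext (by simp) h1 h2 (Finset.univ : Finset (Option (Fin s))) (fun A hA => by
    by_cases hn : none ∈ A
    · rw [pairCube_of_mem hn, pairCube_of_mem hn]
      have : A.eraseNone ≠ Finset.univ := by
        intro h4
        apply hA
        rw [Finset.eq_univ_iff_forall]
        intro o
        cases o with
        | none => exact hn
        | some i =>
          have : i ∈ A.eraseNone := by rw [h4]; exact Finset.mem_univ i
          simpa using this
      simp [vcube, this]
    · rw [pairCube_of_notMem hn, pairCube_of_notMem hn])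
  have h4 := congrFun h3 Finset.univ
  rw [pairCube_of_mem (Finset.mem_univ _), pairCube_of_mem (Finset.mem_univ _)] at h4
  have h5 : (Finset.univ : Finset (Option (Fin s))).eraseNone = Finset.univ := by
    ext i; simp
  rw [h5] at h4
  simpa [vcube] using h4

/-- joint continuity in coordinates: if `x` is fixed, `a x = y` and `z` vary, then `a z` is a
continuous function of `(y, z)` -/
theorem exists_str_continuous (hT : IsMin T) {s : ℕ} (hs : UniqCub T s) (x : X) :
    ∃ m : {y : X // (vcube x y : Finset (Fin s) → X) ∈ Cub T (Fin s)} × X → X, Continuous m ∧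
      ∀ y z (a : X ≃ₜ X), IsStr T s a → a x = y.1 → m (y, z) = a z := by
  set K := {y : X // (vcube x y : Finset (Fin s) → X) ∈ Cub T (Fin s)} with hK
  have hvc : Continuous fun y : X => (vcube x y : Finset (Fin s) → X) := by
    refine continuous_pi fun A => ?_
    by_cases hA : A = Finset.univ
    · simp only [vcube, hA, if_true]; exact continuous_id
    · simp only [vcube, hA, if_false]; exact continuous_const
  have hKc : IsClosed {y : X | (vcube x y : Finset (Fin s) → X) ∈ Cub T (Fin s)} :=
    isClosed_Cub.preimage hvc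
  have : CompactSpace K := isCompact_iff_compactSpace.mp hKc.isCompact
  have hex : ∀ y : K, ∃ a : X ≃ₜ X, IsStr T s a ∧ a x = y.1 := fun y => exists_str hT hs y.2
  choose a ha hax using hex
  set R : K × X → X → Prop := fun q w =>
    pairCube (vcube x q.1.1 : Finset (Fin s) → X) (vcube q.2 w) ∈ Cub T (Option (Fin s)) with hR
  have hRa : ∀ q : K × X, R q (a q.1 q.2) := by
    intro q
    have h := (ha q.1).pair_mem hT x q.2
    rw [hax] at h
    exact h
  have hgraph : IsClosed {r : (K × X) × X | R r.1 r.2} := by
    have hcont : Continuous fun r : (K × X) × X =>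
        pairCube (vcube x r.1.1.1 : Finset (Fin s) → X) (vcube r.1.2 r.2) := by
      refine continuous_pi fun A => ?_
      by_cases hA : none ∈ A
      · by_cases hu : A.eraseNone = Finset.univ
        · simp only [pairCube, hA, if_true, vcube, hu]; exact continuous_snd
        · simp only [pairCube, hA, if_true, vcube, hu, if_false]
          exact continuous_snd.comp continuous_fst
      · by_cases hu : A.eraseNone = Finset.univ
        · simp only [pairCube, hA, if_false, vcube, hu, if_true]
          exact continuous_subtype_val.comp (continuous_fst.comp continuous_fst)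
        · simp only [pairCube, hA, if_false, vcube, hu]
          exact continuous_const
    exact isClosed_Cub.preimage hcont
  refine ⟨fun q => a q.1 q.2, ?_, fun y z b hb hbx => ?_⟩
  · rw [continuous_iff_isClosed]
    intro L hL
    have h1 : (fun q : K × X => a q.1 q.2) ⁻¹' L =
        Prod.fst '' ({r : (K × X) × X | R r.1 r.2} ∩ Prod.snd ⁻¹' L) := by
      ext q
      constructor
      · intro hq
        exact ⟨(q, a q.1 q.2), ⟨hRa q, hq⟩, rfl⟩
      · rintro ⟨⟨q', w⟩, ⟨h2, h3⟩, rfl⟩
        have h4 : w = a q'.1 q'.2 := pair_unique hs h2 (hRa q')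
        subst h4
        exact h3
    rw [h1]
    exact ((hgraph.inter (hL.preimage continuous_snd)).isCompact.image continuous_fst).isClosed
  · have : a y = b := (ha y).eq_of_eq hT hb (by rw [hax, hbx])
    show a y z = b z
    rw [this]

end str

end MP_e326dc_an
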