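import Pool.Agent.Lib.MP_e326dc_an.Cube.Str2
import Pool.Agent.Lib.MP_e326dc_an.Cube.Quot2
import Pool.Agent.Lib.MP_e326dc_an.E.Act

set_option autoImplicit false

/-!
# The structure group as a compact group acting on the system, and the orders of quotients
(E1 and E2 in the form of `E/Act.lean`)
-/

open Filter Topology

namespace MP_e326dc_an

attribute [local instance] Ultrafilter.add Ultrafilter.addSemigroup

theorem continuous_of_closed_graph {Z X : Type*} [TopologicalSpace Z] [TopologicalSpace X]
    [CompactSpace Z] [T2Space Z] [CompactSpace X] {f : Z → X}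
    (h : IsClosed {q : Z × X | q.2 = f q.1}) : Continuous f := by
  rw [continuous_iff_isClosed]
  intro L hL
  have h1 : f ⁻¹' L = Prod.fst '' ({q : Z × X | q.2 = f q.1} ∩ Prod.snd ⁻¹' L) := by
    ext z
    constructor
    · intro hz
      exact ⟨(z, f z), ⟨rfl, hz⟩, rfl⟩
    · rintro ⟨⟨z', w⟩, ⟨h2, h3⟩, rfl⟩
      have h4 : w = f z' := h2
      subst h4
      exact h3
  rw [h1]
  exact ((h.inter (hL.preimage continuous_snd)).isCompact.image continuous_fst).isClosed

/-- E1: the structure group of a minimal system of order `s ≥ 1`. -/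
theorem exists_strGroup {P : DSys} {s : ℕ} (h1 : 1 ≤ s) (hP : P.Ord s) :
    ∃ (A : Type) (_ : CommGroup A) (_ : TopologicalSpace A) (_ : IsTopologicalGroup A)
      (_ : CompactSpace A) (_ : T2Space A) (a : GAct A P), (∀ c, IsStr P.T s (a.hom c)) ∧
      (∀ x y, (vcube x y : Finset (Fin s) → P.X) ∈ Cub P.T (Fin s) → ∃ c, a.hom c x = y) ∧
      (SecondCountableTopology P.X → SecondCountableTopology A) := by
  obtain ⟨x₀⟩ := hP.ne
  have hT := hP.min
  have hs := hP.uniq
  let H : Subgroup (P.X ≃ₜ P.X) :=
    { carrier := {a | IsStr P.T s a}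
      mul_mem' := fun ha hb => IsStr.mul hT hs ha hb
      one_mem' := IsStr.one
      inv_mem' := fun ha => IsStr.inv hT hs ha }
  let cg : CommGroup H :=
    { (inferInstance : Group H) with
      mul_comm := fun a b => Subtype.ext (IsStr.comm hT h1 hs a.2 b.2) }
  have hvc : Continuous fun y : P.X => (vcube x₀ y : Finset (Fin s) → P.X) := by
    refine continuous_pi fun A => ?_
    by_cases hA : A = Finset.univ
    · simp only [vcube, hA, if_true]; exact continuous_id
    · simp only [vcube, hA, if_false]; exact continuous_const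
  have hKc : IsClosed {y : P.X | (vcube x₀ y : Finset (Fin s) → P.X) ∈ Cub P.T (Fin s)} :=
    isClosed_Cub.preimage hvc
  let K : Type := {y : P.X // (vcube x₀ y : Finset (Fin s) → P.X) ∈ Cub P.T (Fin s)}
  have hKcomp : CompactSpace K := isCompact_iff_compactSpace.mp hKc.isCompact
  let e : H → K := fun a => ⟨a.1 x₀, a.2.2 x₀⟩
  have he : Function.Bijective e := by
    constructor
    · intro a b hab
      exact Subtype.ext (IsStr.eq_of_eq hT a.2 b.2 (congrArg Subtype.val hab))
    · rintro ⟨y, hy⟩
      obtain ⟨a, ha, hax⟩ := exists_str hT hs hy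
      exact ⟨⟨a, ha⟩, Subtype.ext hax⟩
  let top : TopologicalSpace H := TopologicalSpace.induced e inferInstance
  have hind : IsInducing e := ⟨rfl⟩
  let E : H ≃ₜ K := (Equiv.ofBijective e he).toHomeomorphOfIsInducing hind
  have hcomp : CompactSpace H := E.symm.compactSpace
  have ht2 : T2Space H := E.symm.t2Space
  obtain ⟨m, hm, hma⟩ := exists_str_continuous hT hs x₀
  have hact : Continuous fun q : H × P.X => q.1.1 q.2 := by
    have h2 : (fun q : H × P.X => q.1.1 q.2) = fun q => m (e q.1, q.2) := by
      funext q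
      exact (hma (e q.1) q.2 q.1.1 q.1.2 rfl).symm
    rw [h2]
    exact hm.comp ((hind.continuous.comp continuous_fst).prodMk continuous_snd)
  have hev : Continuous fun a : H => a.1 x₀ := continuous_subtype_val.comp hind.continuous
  have hcont_iff : ∀ {Z : Type} [TopologicalSpace Z] (f : Z → H),
      Continuous (fun z => (f z).1 x₀) → Continuous f := by
    intro Z _ f hf
    rw [hind.continuous_iff]
    exact hf.subtype_mk _
  have htg : IsTopologicalGroup H :=
    { continuous_mul := by
        refine hcont_iff _ ?_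
        have : (fun q : H × H => (q.1 * q.2).1 x₀) = fun q => q.1.1 (q.2.1 x₀) := rfl
        rw [this]
        exact hact.comp (continuous_fst.prodMk (hev.comp continuous_snd))
      continuous_inv := by
        refine hcont_iff _ ?_
        refine continuous_of_closed_graph ?_
        have : {q : H × P.X | q.2 = (q.1⁻¹).1 x₀} = {q : H × P.X | q.1.1 q.2 = x₀} := by
          ext q
          constructor
          · intro (h : q.2 = (q.1⁻¹).1 x₀)
            show q.1.1 q.2 = x₀
            rw [h]
            exact q.1.1.apply_symm_apply x₀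
          · intro (h : q.1.1 q.2 = x₀)
            show q.2 = (q.1⁻¹).1 x₀
            rw [← h]
            exact (q.1.1.symm_apply_apply q.2).symm
        rw [this]
        exact isClosed_eq hact continuous_const }
  refine ⟨H, cg, top, htg, hcomp, ht2,
    { hom := H.subtype
      cont := hact
      comm := fun c x => c.2.1 x
      free := fun c x h => Subtype.ext (IsStr.eq_of_eq hT c.2 IsStr.one (x := x) h) },
    fun c => c.2, fun x y hxy => ?_, fun hsc => ?_⟩
  · obtain ⟨a, ha, hax⟩ := exists_str hT hs hxy
    exact ⟨⟨a, ha⟩, hax⟩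
  · have : SecondCountableTopology K :=
      TopologicalSpace.Subtype.secondCountableTopology
        {y : P.X | (vcube x₀ y : Finset (Fin s) → P.X) ∈ Cub P.T (Fin s)}
    exact hind.secondCountableTopology

/-- In a system of order `s` the elements of the structure group have level `s`. -/
theorem GAct.level_of_str {C : Type} [CommGroup C] [TopologicalSpace C] {P : DSys} (a : GAct C P)
    {s : ℕ} (hP : P.Ord s) (h : ∀ c, IsStr P.T s (a.hom c)) : a.Level s where
  mem c x := (h c).2 x
  not_mem c x hx := by
    have h1 := hP.uniq _ hx _ (const_mem_Cub (T := P.T) x) (fun A hA => by simp [vcube, hA])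
    have h2 := congrFun h1 Finset.univ
    simp only [vcube, if_true] at h2
    exact a.free c x h2

/-- the action as a `MulAction` -/
@[reducible] def GAct.mulAction {C : Type} [CommGroup C] [TopologicalSpace C] {P : DSys}
    (a : GAct C P) : MulAction C P.X where
  smul c x := a.hom c x
  one_smul := a.hom_one
  mul_smul := a.hom_mul

theorem GAct.isQuot {C : Type} [CommGroup C] [TopologicalSpace C] {P : DSys} (a : GAct C P)
    {Q : DSys} (π : DFactor P Q) (h : ∀ x y, π.π x = π.π y ↔ ∃ c, a.hom c x = y) :
    @IsQuot _ _ _ _ P.T Q.T C _ a.mulAction π.π :=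
  let := a.mulAction
  { cont := π.cont
    surj := π.surj
    equi := π.equi
    inv := fun c x => ((h x (a.hom c x)).mpr ⟨c, rfl⟩).symm
    fib := fun x x' hx => by
      obtain ⟨c, hc⟩ := (h x x').mp hx
      exact ⟨c, hc.symm⟩ }

/-- E2: the orbit space of a group of level `j` has order at most `l`. -/
theorem GAct.ord_of_level {C : Type} [CommGroup C] [TopologicalSpace C] {P : DSys} (a : GAct C P)
    {Q : DSys} (π : DFactor P Q) (h : ∀ x y, π.π x = π.π y ↔ ∃ c, a.hom c x = y) {l j : ℕ}
    (hP : P.Ord l) (hjl : j ≤ l) (hj : a.Level j) : Q.Ord l := by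
  let := a.mulAction
  have : ContinuousConstSMul C P.X := ⟨fun c => (a.hom c).continuous⟩
  have hq := a.isQuot π h
  have hlev : LevelAct P.T C j :=
    { comm := fun c x => a.comm c x
      free := fun c x hx => a.free c x hx
      lev := fun c x => hj.mem c x
      top := fun c x hx => hj.not_mem c x hx }
  exact ⟨hP.ne.map π.π, hq.isMin hP.min, hq.uniqCub hP.min hjl hP.uniq hlev⟩

/-- E1': the orbit space of the whole structure group has order at most `s`. -/
theorem GAct.ord_of_str {C : Type} [CommGroup C] [TopologicalSpace C] {P : DSys} (a : GAct C P)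
    {Q : DSys} (π : DFactor P Q) (h : ∀ x y, π.π x = π.π y ↔ ∃ c, a.hom c x = y) {s : ℕ}
    (hP : P.Ord (s + 1)) (hs : ∀ c, IsStr P.T (s + 1) (a.hom c))
    (hall : ∀ x y, (vcube x y : Finset (Fin (s + 1)) → P.X) ∈ Cub P.T (Fin (s + 1)) →
      ∃ c, a.hom c x = y) : Q.Ord s := by
  let := a.mulAction
  have : ContinuousConstSMul C P.X := ⟨fun c => (a.hom c).continuous⟩
  have hq := a.isQuot π h
  have hj := a.level_of_str hP hs
  have hlev : LevelAct P.T C (s + 1) :=
    { comm := fun c x => a.comm c x
      free := fun c x hx => a.free c x hx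
      lev := fun c x => hj.mem c x
      top := fun c x hx => hj.not_mem c x hx }
  refine ⟨hP.ne.map π.π, hq.isMin hP.min, hq.uniqCub_str hP.min hP.uniq hlev fun x y hxy => ?_⟩
  obtain ⟨c, hc⟩ := hall x y hxy
  exact ⟨c, hc.symm⟩

theorem GAct.quot_ord_of_level {C : Type} [CommGroup C] [TopologicalSpace C] [CompactSpace C]
    {P : DSys} (a : GAct C P) {l j : ℕ} (hP : P.Ord l) (hjl : j ≤ l) (hj : a.Level j) :
    a.quot.Ord l :=
  a.ord_of_level a.fac a.fac_eq_iff hP hjl hj

theorem GAct.quot_ord_of_str {C : Type} [CommGroup C] [TopologicalSpace C] [CompactSpace C]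
    {P : DSys} (a : GAct C P) {s : ℕ} (hP : P.Ord (s + 1))
    (hs : ∀ c, IsStr P.T (s + 1) (a.hom c))
    (hall : ∀ x y, (vcube x y : Finset (Fin (s + 1)) → P.X) ∈ Cub P.T (Fin (s + 1)) →
      ∃ c, a.hom c x = y) : a.quot.Ord s :=
  a.ord_of_str a.fac a.fac_eq_iff hP hs hall

end MP_e326dc_an
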