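import Pool.Agent.Lib.MP_e326dc_an.Cube.Glue

set_option autoImplicit false

/-!
# Definitions: subsystems, products, actions of level `j`, essential ultrafilters
-/

open Filter Topology

namespace MP_e326dc_an

attribute [local instance] Ultrafilter.add Ultrafilter.addSemigroup

/-! ### Subsystems and products -/

section sys
variable {X : Type*} [TopologicalSpace X]

/-- the orbit closure of `x` -/
def orbC (T : X ≃ₜ X) (x : X) : Set X := closure (Set.range fun n : ℤ => (T ^ n) x)

theorem orbC_inv (T : X ≃ₜ X) (x : X) : ∀ y, y ∈ orbC T x ↔ T y ∈ orbC T x := by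
  intro y
  constructor
  · intro h
    refine map_mem_closure T.continuous h ?_
    rintro _ ⟨n, rfl⟩
    refine ⟨1 + n, ?_⟩
    change (T ^ (1 + n)) x = T ((T ^ n) x)
    rw [zpow_add_apply, zpow_one]
  · intro h
    have h2 : T⁻¹ (T y) ∈ orbC T x := by
      refine map_mem_closure (f := fun z => T⁻¹ z) T.symm.continuous h ?_
      rintro _ ⟨n, rfl⟩
      refine ⟨-1 + n, ?_⟩
      change (T ^ (-1 + n)) x = T⁻¹ ((T ^ n) x)
      rw [zpow_add_apply, zpow_neg_one]
    have h3 : T⁻¹ (T y) = y := T.symm_apply_apply y
    rwa [h3] at h2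

end sys

/-- the orbit closure of `z` as a system -/
def DSys.orb (P : DSys) (z : P.X) : DSys :=
  haveI : CompactSpace (orbC P.T z) := isCompact_iff_compactSpace.mp isClosed_closure.isCompact
  { X := orbC P.T z
    T := P.T.subtype (orbC_inv P.T z) }

/-- the product of systems -/
def DSys.pi {κ : Type} (P : κ → DSys) : DSys where
  X := ∀ k, (P k).X
  T := Homeomorph.piCongrRight fun k => (P k).T

/-! ### Actions -/

/-- The group `C` acts freely by maps commuting with `T`, and has level `j`: `(x,…,x,cx)` is always a
cube of dimension `j`, and a cube of dimension `j + 1` only for `c = 1`. -/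
structure LevelAct {X : Type*} [TopologicalSpace X] (T : X ≃ₜ X) (C : Type*) [Group C]
    [MulAction C X] (j : ℕ) : Prop where
  comm : ∀ (c : C) (x : X), c • T x = T (c • x)
  free : ∀ (c : C) (x : X), c • x = x → c = 1
  lev : ∀ (c : C) (x : X), (vcube x (c • x) : Finset (Fin j) → X) ∈ Cub T (Fin j)
  top : ∀ (c : C) (x : X), (vcube x (c • x) : Finset (Fin (j + 1)) → X) ∈ Cub T (Fin (j + 1)) →
    c = 1

/-- `π` is the quotient map of the action of `C`. -/
structure IsQuot {X Y : Type*} [TopologicalSpace X] [TopologicalSpace Y] (T : X ≃ₜ X) (S : Y ≃ₜ Y)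
    (C : Type*) [Group C] [MulAction C X] (π : X → Y) : Prop where
  cont : Continuous π
  surj : Function.Surjective π
  equi : ∀ x, π (T x) = S (π x)
  inv : ∀ (c : C) (x : X), π (c • x) = π x
  fib : ∀ x x', π x = π x' → ∃ c : C, x' = c • x

/-! ### Essential ultrafilters -/

/-- sets of integers of upper Banach density zero -/
def NullSet (A : Set ℤ) : Prop := Null (A.indicator fun _ => (1 : ℝ))

/-- the ultrafilters which contain no set of upper Banach density zero -/
def Ess : Set (Ultrafilter ℤ) := {p | ∀ A : Set ℤ, A ∈ p → ¬ NullSet A}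

end MP_e326dc_an
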