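import Pool.Agent.Lib.MP_e326dc_an.Cube.StrDefs

set_option autoImplicit false

/-!
# Orbit closures and products of systems
-/

open Filter Topology

namespace MP_e326dc_an

attribute [local instance] Ultrafilter.add Ultrafilter.addSemigroup

/-! ### Orbit closures -/

/-- the inclusion of an orbit closure -/
private def sysVal (P : DSys) (z : P.X) : (P.orb z).X → P.X := fun x => Subtype.val (p := (· ∈ orbC P.T z)) x

private theorem sysVal_cont (P : DSys) (z : P.X) : Continuous (sysVal P z) := continuous_subtype_val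

private theorem sysVal_inj (P : DSys) (z : P.X) : Function.Injective (sysVal P z) :=
  Subtype.val_injective

private theorem sysVal_mem (P : DSys) (z : P.X) (x : (P.orb z).X) : sysVal P z x ∈ orbC P.T z :=
  Subtype.property (p := (· ∈ orbC P.T z)) x

private theorem sysVal_equi (P : DSys) (z : P.X) (x : (P.orb z).X) :
    sysVal P z ((P.orb z).T x) = P.T (sysVal P z x) := rfl

/-- the base point of the orbit closure -/
private def sysBase (P : DSys) (z : P.X) : (P.orb z).X :=
  (⟨z, subset_closure ⟨0, by simp⟩⟩ : {x // x ∈ orbC P.T z})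

private theorem sysVal_base (P : DSys) (z : P.X) : sysVal P z (sysBase P z) = z := rfl

theorem DSys.orb_ord {P : DSys} (hd : DistalU P.T) {s : ℕ} (hs : UniqCub P.T s) (z : P.X) :
    (P.orb z).Ord s := by
  refine ⟨⟨sysBase P z⟩, ?_, ?_⟩
  · intro y x
    have hy : z ∈ closure (Set.range fun n : ℤ => (P.T ^ n) (sysVal P z y)) :=
      hd.mem_closure_symm (sysVal_mem P z y)
    obtain ⟨p, hp⟩ := exists_pact_of_mem_closure hy
    obtain ⟨q, hq⟩ := exists_pact_of_mem_closure (sysVal_mem P z x)
    refine mem_closure_orbit_iff.mpr ⟨q + p, sysVal_inj P z ?_⟩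
    rw [map_pact (sysVal_cont P z) (sysVal_equi P z), pact_add, hp, hq]
  · intro c hc c' hc' h
    have h1 := hs _ (Cub_map (sysVal_cont P z) (sysVal_equi P z) hc) _
      (Cub_map (sysVal_cont P z) (sysVal_equi P z) hc') (fun S hS => congrArg _ (h S hS))
    funext S
    exact sysVal_inj P z (congrFun h1 S)

/-! ### Products -/

private theorem sysPi_cont {κ : Type} (P : κ → DSys) (k : κ) :
    Continuous fun x : (DSys.pi P).X => (x k : (P k).X) := continuous_apply k

private theorem sysPi_equi {κ : Type} (P : κ → DSys) (k : κ) (x : (DSys.pi P).X) :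
    ((DSys.pi P).T x) k = (P k).T (x k) := rfl

theorem DSys.pi_distalU {κ : Type} {P : κ → DSys} (h : ∀ k, DistalU (P k).T) :
    DistalU (DSys.pi P).T := by
  intro p hp x
  funext k
  have h1 := map_pact (sysPi_cont P k) (sysPi_equi P k) p x
  have h2 := h k p hp (x k)
  exact h1.trans h2

theorem DSys.pi_uniqCub {κ : Type} {P : κ → DSys} {s : ℕ} (h : ∀ k, UniqCub (P k).T s) :
    UniqCub (DSys.pi P).T s := by
  intro c hc c' hc' hcc
  funext S k
  have h1 := h k _ (Cub_map (sysPi_cont P k) (sysPi_equi P k) hc) _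
    (Cub_map (sysPi_cont P k) (sysPi_equi P k) hc') (fun S hS => congrFun (hcc S hS) k)
  exact congrFun h1 S

/-- joint orbit closures -/
theorem exists_joint {κ : Type} [Countable κ] (P : κ → DSys) {s : ℕ} (h : ∀ k, (P k).Ord s)
    (z : ∀ k, (P k).X) :
    ∃ (Q : DSys) (_ : Q.Ord s) (w : Q.X) (π : ∀ k, DFactor Q (P k)), (∀ k, (π k).π w = z k) ∧
      ((∀ k, TopologicalSpace.MetrizableSpace (P k).X) → TopologicalSpace.MetrizableSpace Q.X) := by
  have hc : ∀ k, Continuous fun x : ((DSys.pi P).orb z).X => (sysVal (DSys.pi P) z x) k :=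
    fun k => (sysPi_cont P k).comp (sysVal_cont (DSys.pi P) z)
  have he : ∀ k (x : ((DSys.pi P).orb z).X), (sysVal (DSys.pi P) z (((DSys.pi P).orb z).T x)) k =
      (P k).T (sysVal (DSys.pi P) z x k) := fun k x => rfl
  refine ⟨(DSys.pi P).orb z, DSys.orb_ord (DSys.pi_distalU fun k => (h k).uniq.distalU)
    (DSys.pi_uniqCub fun k => (h k).uniq) z, sysBase (DSys.pi P) z, fun k =>
    ⟨fun x => sysVal (DSys.pi P) z x k, hc k, ?_, he k⟩, fun k => rfl, ?_⟩
  · intro y
    obtain ⟨p, hp⟩ := (h k).min.exists_pact (z k) y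
    refine ⟨pact ((DSys.pi P).orb z).T p (sysBase (DSys.pi P) z), ?_⟩
    have h1 := map_pact (hc k) (he k) p (sysBase (DSys.pi P) z)
    exact h1.trans hp
  · intro hm
    have h2 : ∀ k, SecondCountableTopology (P k).X := by
      intro k
      have := hm k
      let _ := TopologicalSpace.metrizableSpaceMetric (P k).X
      infer_instance
    have h3 : SecondCountableTopology (DSys.pi P).X :=
      inferInstanceAs (SecondCountableTopology (∀ k, (P k).X))
    have h4 : SecondCountableTopology ((DSys.pi P).orb z).X :=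
      inferInstanceAs (SecondCountableTopology {x // x ∈ orbC (DSys.pi P).T z})
    exact TopologicalSpace.metrizableSpace_of_t3_secondCountable _

end MP_e326dc_an
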