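import Pool.Agent.Lib.MP_e326dc_an.Defs

set_option autoImplicit false

/-!
# The action of the ultrafilters on `ℤ` on a compact system, and on its cubes

`pact T p x = lim_{m → p} T^m x` (notation `p.x` in the paper), `cpact` the same for the group
`ℤ × ℤ^ι` (index type `Option ι`) acting on `X^{cube}`.
In files which use `p + q` for ultrafilters write
`attribute [local instance] Ultrafilter.add Ultrafilter.addSemigroup`.
-/

open Filter Topology

namespace MP_e326dc_an

attribute [local instance] Ultrafilter.add Ultrafilter.addSemigroup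

/-! ### General facts -/

theorem ultra_map_add {A B : Type*} [Add A] [Add B] (φ : A → B)
    (hφ : ∀ a a', φ (a + a') = φ a + φ a') (p q : Ultrafilter A) :
    (p + q).map φ = p.map φ + q.map φ := by
  refine Ultrafilter.coe_inj.mp (Filter.ext' fun P => ?_)
  rw [Ultrafilter.eventually_add]
  simp only [Ultrafilter.coe_map, Filter.eventually_map]
  rw [Ultrafilter.eventually_add]
  simp only [hφ]

theorem ultra_map_pure {A B : Type*} (φ : A → B) (a : A) :
    (pure a : Ultrafilter A).map φ = pure (φ a) := by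
  refine Ultrafilter.coe_inj.mp ?_
  simp

/-- A closed nonempty subsemigroup of the ultrafilters contains an idempotent. -/
theorem exists_idem_ultra {A : Type*} [AddSemigroup A] (D : Set (Ultrafilter A))
    (hne : D.Nonempty) (hcl : IsClosed D) (hadd : ∀ p ∈ D, ∀ q ∈ D, p + q ∈ D) :
    ∃ p ∈ D, p + p = p :=
  exists_idempotent_in_compact_add_subsemigroup (fun r => Ultrafilter.continuous_add_left r) D hne
    hcl.isCompact hadd

section
variable {X Y : Type*} [TopologicalSpace X] [TopologicalSpace Y]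

/-- the action of an ultrafilter on `ℤ` -/
noncomputable def pact (T : X ≃ₜ X) (p : Ultrafilter ℤ) (x : X) : X :=
  Ultrafilter.extend (fun m : ℤ => (T ^ m) x) p

/-- `(n, h) ↦ n + S·h` (index type `Option ι`, `none` for `n`) -/
def expoV {ι : Type*} (S : Finset ι) (v : Option ι → ℤ) : ℤ :=
  expo (v none) (fun i => v (some i)) S

/-- the action of an ultrafilter on `ℤ × ℤ^ι` on `X^{cube}` -/
noncomputable def cpact {ι : Type*} (T : X ≃ₜ X) (p : Ultrafilter (Option ι → ℤ))
    (c : Finset ι → X) : Finset ι → X :=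
  fun S => pact T (p.map (expoV S)) (c S)

/-- all the idempotent ultrafilters act trivially -/
def DistalU (T : X ≃ₜ X) : Prop := ∀ p : Ultrafilter ℤ, p + p = p → ∀ x, pact T p x = x

theorem expo_add {ι : Type*} (n n' : ℤ) (h h' : ι → ℤ) (S : Finset ι) :
    expo (n + n') (h + h') S = expo n h S + expo n' h' S := by
  simp only [expo, Pi.add_apply, Finset.sum_add_distrib]
  ring

theorem expoV_add {ι : Type*} (S : Finset ι) (v w : Option ι → ℤ) :
    expoV S (v + w) = expoV S v + expoV S w := by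
  simp only [expoV, expo, Pi.add_apply, Finset.sum_add_distrib]
  ring

theorem cact_apply {ι : Type*} (T : X ≃ₜ X) (v : Option ι → ℤ) (c : Finset ι → X)
    (S : Finset ι) : cact T v c S = (T ^ expoV S v) (c S) := rfl

theorem continuous_zpow (T : X ≃ₜ X) (m : ℤ) : Continuous fun x => (T ^ m) x := (T ^ m).continuous

theorem zpow_add_apply (T : X ≃ₜ X) (m n : ℤ) (x : X) : (T ^ (m + n)) x = (T ^ m) ((T ^ n) x) := by
  rw [zpow_add]; rfl

/-- a map which intertwines `T` and `S` intertwines the powers -/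
theorem equi_zpow {T : X ≃ₜ X} {S : Y ≃ₜ Y} {φ : X → Y} (h : ∀ x, φ (T x) = S (φ x)) (m : ℤ)
    (x : X) : φ ((T ^ m) x) = (S ^ m) (φ x) := by
  have hinv : ∀ x, φ (T⁻¹ x) = S⁻¹ (φ x) := by
    intro x
    have h1 := h (T⁻¹ x)
    have h2 : T (T⁻¹ x) = x := T.apply_symm_apply x
    rw [h2] at h1
    rw [h1]
    exact (S.symm_apply_apply _).symm
  induction m using Int.induction_on generalizing x with
  | zero => simp
  | succ n ih => rw [zpow_add, zpow_add, zpow_one, zpow_one]; exact (ih (T x)).trans (by rw [h]; rfl)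
  | pred n ih =>
    rw [zpow_sub, zpow_sub, zpow_one, zpow_one]
    exact (ih (T⁻¹ x)).trans (by rw [hinv]; rfl)

theorem cact_add {ι : Type*} (T : X ≃ₜ X) (v w : Option ι → ℤ) (c : Finset ι → X) :
    cact T (v + w) c = cact T v (cact T w c) := by
  funext S
  rw [cact_apply, expoV_add, zpow_add_apply]; rfl

theorem continuous_cact {ι : Type*} (T : X ≃ₜ X) (v : Option ι → ℤ) :
    Continuous fun c : Finset ι → X => cact T v c :=
  continuous_pi fun S => (continuous_zpow T _).comp (continuous_apply S)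

variable [CompactSpace X] [T2Space X] [CompactSpace Y] [T2Space Y]

theorem tendsto_pact (T : X ≃ₜ X) (p : Ultrafilter ℤ) (x : X) :
    Tendsto (fun m : ℤ => (T ^ m) x) p (𝓝 (pact T p x)) :=
  (ultrafilter_extend_eq_iff (f := fun m : ℤ => (T ^ m) x)).mp rfl

theorem pact_eq_of_tendsto {T : X ≃ₜ X} {p : Ultrafilter ℤ} {x y : X}
    (h : Tendsto (fun m : ℤ => (T ^ m) x) p (𝓝 y)) : pact T p x = y :=
  tendsto_nhds_unique (tendsto_pact T p x) h

theorem pact_pure (T : X ≃ₜ X) (n : ℤ) (x : X) : pact T (pure n) x = (T ^ n) x :=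
  ultrafilter_extend_pure _ _

theorem continuous_pact (T : X ≃ₜ X) (x : X) : Continuous fun p : Ultrafilter ℤ => pact T p x :=
  continuous_ultrafilter_extend _

/-- equivariance -/
theorem map_pact {T : X ≃ₜ X} {S : Y ≃ₜ Y} {φ : X → Y} (hφ : Continuous φ)
    (h : ∀ x, φ (T x) = S (φ x)) (p : Ultrafilter ℤ) (x : X) :
    φ (pact T p x) = pact S p (φ x) := by
  symm
  refine pact_eq_of_tendsto ?_
  have h1 := (hφ.tendsto _).comp (tendsto_pact T p x)
  refine h1.congr fun m => ?_
  exact equi_zpow h m x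

theorem pact_add (T : X ≃ₜ X) (p q : Ultrafilter ℤ) (x : X) :
    pact T (p + q) x = pact T p (pact T q x) := by
  refine pact_eq_of_tendsto ?_
  rw [tendsto_nhds]
  intro U hU hy
  change ∀ᶠ m in ((p + q : Ultrafilter ℤ) : Filter ℤ), (T ^ m) x ∈ U
  rw [Ultrafilter.eventually_add]
  have h1 : ∀ᶠ m in (p : Filter ℤ), (T ^ m) (pact T q x) ∈ U :=
    (tendsto_pact T p (pact T q x)).eventually (hU.mem_nhds hy)
  refine h1.mono fun m hm => ?_
  have h2 : Tendsto (fun m' : ℤ => (T ^ m) ((T ^ m') x)) q (𝓝 ((T ^ m) (pact T q x))) :=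
    ((continuous_zpow T m).tendsto _).comp (tendsto_pact T q x)
  refine (h2.eventually (hU.mem_nhds hm)).mono fun m' hm' => ?_
  rw [zpow_add_apply]
  exact hm'

theorem pact_mem_of_isClosed {T : X ≃ₜ X} {p : Ultrafilter ℤ} {x : X} {A : Set X}
    (hA : IsClosed A) (h : ∀ᶠ m in (p : Filter ℤ), (T ^ m) x ∈ A) : pact T p x ∈ A :=
  hA.mem_of_tendsto (tendsto_pact T p x) h

theorem exists_ultra_of_mem_closure_range {A Z : Type*} [TopologicalSpace Z] {f : A → Z} {z : Z}
    (h : z ∈ closure (Set.range f)) : ∃ p : Ultrafilter A, Tendsto f p (𝓝 z) := by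
  rw [mem_closure_iff_ultrafilter] at h
  obtain ⟨u, hu, huy⟩ := h
  have hu' : f '' Set.univ ∈ u := by rwa [Set.image_univ]
  refine ⟨Ultrafilter.ofComapInfPrincipal hu', ?_⟩
  have := Ultrafilter.ofComapInfPrincipal_eq_of_map hu'
  rw [Tendsto, ← Ultrafilter.coe_map, this]
  exact huy

theorem exists_pact_of_mem_closure {T : X ≃ₜ X} {x y : X}
    (h : y ∈ closure (Set.range fun n : ℤ => (T ^ n) x)) : ∃ p : Ultrafilter ℤ, pact T p x = y := by
  obtain ⟨p, hp⟩ := exists_ultra_of_mem_closure_range h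
  exact ⟨p, pact_eq_of_tendsto hp⟩

theorem mem_closure_orbit_iff {T : X ≃ₜ X} {x y : X} :
    y ∈ closure (Set.range fun n : ℤ => (T ^ n) x) ↔ ∃ p : Ultrafilter ℤ, pact T p x = y := by
  constructor
  · intro h
    exact exists_pact_of_mem_closure h
  · rintro ⟨p, rfl⟩
    exact pact_mem_of_isClosed isClosed_closure
      (Eventually.of_forall fun m => subset_closure ⟨m, rfl⟩)

theorem IsMin.exists_pact {T : X ≃ₜ X} (hT : IsMin T) (x y : X) :
    ∃ p : Ultrafilter ℤ, pact T p x = y :=
  exists_pact_of_mem_closure (hT x y)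

/-! ### The action on cubes -/

theorem tendsto_cpact {ι : Type*} (T : X ≃ₜ X) (p : Ultrafilter (Option ι → ℤ))
    (c : Finset ι → X) :
    Tendsto (fun v => cact T v c) p (𝓝 (cpact T p c)) := by
  rw [tendsto_pi_nhds]
  intro S
  have h := tendsto_pact T (p.map (expoV S)) (c S)
  rw [Ultrafilter.coe_map, tendsto_map'_iff] at h
  exact h

theorem cpact_eq_of_tendsto {ι : Type*} {T : X ≃ₜ X} {p : Ultrafilter (Option ι → ℤ)}
    {c d : Finset ι → X} (h : Tendsto (fun v => cact T v c) p (𝓝 d)) : cpact T p c = d :=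
  tendsto_nhds_unique (tendsto_cpact T p c) h

theorem cpact_pure {ι : Type*} (T : X ≃ₜ X) (v : Option ι → ℤ) (c : Finset ι → X) :
    cpact T (pure v) c = cact T v c := by
  funext S
  rw [cpact, ultra_map_pure, pact_pure]; rfl

theorem cpact_add {ι : Type*} (T : X ≃ₜ X) (p q : Ultrafilter (Option ι → ℤ))
    (c : Finset ι → X) : cpact T (p + q) c = cpact T p (cpact T q c) := by
  funext S
  rw [cpact, ultra_map_add _ (expoV_add S), pact_add]; rfl

theorem exists_cpact_of_mem_closure {ι : Type*} {T : X ≃ₜ X} {c d : Finset ι → X}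
    (h : d ∈ closure (Set.range fun v : Option ι → ℤ => cact T v c)) :
    ∃ p : Ultrafilter (Option ι → ℤ), cpact T p c = d := by
  obtain ⟨p, hp⟩ := exists_ultra_of_mem_closure_range h
  exact ⟨p, cpact_eq_of_tendsto hp⟩

/-- coordinatewise application of maps commuting with `T` commutes with `cpact` -/
theorem cpact_comm {ι : Type*} {T : X ≃ₜ X} {g : Finset ι → X → X}
    (hg : ∀ S, Continuous (g S)) (hgT : ∀ S x, g S (T x) = T (g S x))
    (p : Ultrafilter (Option ι → ℤ)) (c : Finset ι → X) :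
    (fun S => g S (cpact T p c S)) = cpact T p (fun S => g S (c S)) := by
  funext S
  exact map_pact (hg S) (hgT S) _ _

/-! ### Distality -/

/-- ultrafilters act by bijections -/
theorem DistalU.exists_inv {T : X ≃ₜ X} (hT : DistalU T) (p : Ultrafilter ℤ) :
    ∃ q : Ultrafilter ℤ, ∀ x, pact T q (pact T p x) = x ∧ pact T p (pact T q x) = x := by
  have key : ∀ p : Ultrafilter ℤ, ∃ q : Ultrafilter ℤ, ∀ x, pact T q (pact T p x) = x := by
    intro p
    obtain ⟨e, ⟨q, rfl⟩, he⟩ := exists_idem_ultra (Set.range fun r : Ultrafilter ℤ => r + p)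
      ⟨_, ⟨p, rfl⟩⟩ (isCompact_range (Ultrafilter.continuous_add_left p)).isClosed (by
        rintro _ ⟨r, rfl⟩ _ ⟨r', rfl⟩
        exact ⟨r + p + r', add_assoc _ _ _⟩)
    exact ⟨q, fun x => by rw [← pact_add]; exact hT _ he x⟩
  obtain ⟨q, hq⟩ := key p
  obtain ⟨r, hr⟩ := key q
  refine ⟨q, fun x => ⟨hq x, ?_⟩⟩
  have h1 : pact T p x = pact T r x := by
    have := hr (pact T p x)
    rw [hq] at this
    exact this.symm
  have h2 : ∀ x, pact T p x = pact T r x := by
    intro x
    have := hr (pact T p x)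
    rw [hq] at this
    exact this.symm
  rw [h2, hr]

theorem DistalU.cpact_of_idem {ι : Type*} {T : X ≃ₜ X} (hT : DistalU T)
    {p : Ultrafilter (Option ι → ℤ)} (hp : p + p = p) (c : Finset ι → X) : cpact T p c = c := by
  funext S
  refine hT _ ?_ _
  rw [← ultra_map_add _ (expoV_add S), hp]

theorem DistalU.exists_cinv {ι : Type*} {T : X ≃ₜ X} (hT : DistalU T)
    (p : Ultrafilter (Option ι → ℤ)) :
    ∃ q : Ultrafilter (Option ι → ℤ), ∀ c, cpact T q (cpact T p c) = c ∧
      cpact T p (cpact T q c) = c := by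
  have key : ∀ p : Ultrafilter (Option ι → ℤ), ∃ q : Ultrafilter (Option ι → ℤ),
      ∀ c, cpact T q (cpact T p c) = c := by
    intro p
    obtain ⟨e, ⟨q, rfl⟩, he⟩ := exists_idem_ultra
      (Set.range fun r : Ultrafilter (Option ι → ℤ) => r + p)
      ⟨_, ⟨p, rfl⟩⟩ (isCompact_range (Ultrafilter.continuous_add_left p)).isClosed (by
        rintro _ ⟨r, rfl⟩ _ ⟨r', rfl⟩
        exact ⟨r + p + r', add_assoc _ _ _⟩)
    exact ⟨q, fun c => by rw [← cpact_add]; exact hT.cpact_of_idem he c⟩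
  obtain ⟨q, hq⟩ := key p
  obtain ⟨r, hr⟩ := key q
  refine ⟨q, fun c => ⟨hq c, ?_⟩⟩
  have h2 : ∀ c, cpact T p c = cpact T r c := by
    intro c
    have := hr (cpact T p c)
    rw [hq] at this
    exact this.symm
  rw [h2, hr]

theorem DistalU.distal {T : X ≃ₜ X} (hT : DistalU T) : Distal T := by
  intro x y z h
  have hcl : (z, z) ∈ closure (Set.range fun n : ℤ => ((T ^ n) x, (T ^ n) y)) := by
    rw [mem_closure_iff_nhds]
    intro V hV
    rw [nhds_prod_eq, Filter.mem_prod_same_iff] at hV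
    obtain ⟨U, hU, hUV⟩ := hV
    obtain ⟨n, h1, h2⟩ := h U hU
    exact ⟨_, hUV ⟨h1, h2⟩, ⟨n, rfl⟩⟩
  obtain ⟨p, hp⟩ := exists_ultra_of_mem_closure_range hcl
  rw [Prod.tendsto_iff] at hp
  have hx : pact T p x = z := pact_eq_of_tendsto hp.1
  have hy : pact T p y = z := pact_eq_of_tendsto hp.2
  obtain ⟨q, hq⟩ := hT.exists_inv p
  rw [← (hq x).1, ← (hq y).1, hx, hy]

theorem Distal.distalU {T : X ≃ₜ X} (hT : Distal T) : DistalU T := by
  intro p hp x
  refine (hT x (pact T p x) (pact T p x) fun U hU => ?_).symm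
  have h1 : ∀ᶠ m in (p : Filter ℤ), (T ^ m) x ∈ U := (tendsto_pact T p x).eventually hU
  have h2 : ∀ᶠ m in (p : Filter ℤ), (T ^ m) (pact T p x) ∈ U := by
    refine (tendsto_pact T p (pact T p x)).eventually ?_
    rw [← pact_add, hp]
    exact hU
  obtain ⟨n, hn⟩ := (h1.and h2).exists
  exact ⟨n, hn⟩

/-- a point of the orbit closure has the same orbit closure -/
theorem DistalU.mem_closure_symm {T : X ≃ₜ X} (hT : DistalU T) {x y : X}
    (h : y ∈ closure (Set.range fun n : ℤ => (T ^ n) x)) :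
    x ∈ closure (Set.range fun n : ℤ => (T ^ n) y) := by
  obtain ⟨p, rfl⟩ := exists_pact_of_mem_closure h
  obtain ⟨q, hq⟩ := hT.exists_inv p
  rw [mem_closure_orbit_iff]
  exact ⟨q, (hq x).1⟩

/-- distality passes to factors -/
theorem DistalU.factor {T : X ≃ₜ X} {S : Y ≃ₜ Y} {φ : X → Y} (hT : DistalU T)
    (hφ : Continuous φ) (hs : Function.Surjective φ) (h : ∀ x, φ (T x) = S (φ x)) : DistalU S := by
  intro p hp y
  obtain ⟨x, rfl⟩ := hs y
  rw [← map_pact hφ h, hT p hp]

end

end MP_e326dc_an
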